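import Mathlib

/-!
# The integers are not a Boolean combination of conic conditions: definitions
-/

set_option autoImplicit false

namespace Pool.Agent.H527R9.CC

open Polynomial

/-- the rational numbers `x` for which the conic `a(x) y ^ 2 + b(x) z ^ 2 = c(x)` has a rational
point -/
def Conic (a b c : ℚ[X]) : Set ℚ :=
  {x | ∃ y z : ℚ, a.eval x * y ^ 2 + b.eval x * z ^ 2 = c.eval x}

/-- `D` is locally constant in the real topology, off a finite set -/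
def RealLoc (D : Set ℚ) : Prop :=
  ∃ F : Set ℚ, F.Finite ∧ ∀ x, x ∉ F → ∃ ε : ℚ, 0 < ε ∧ ∀ y : ℚ, |y - x| < ε → (y ∈ D ↔ x ∈ D)

/-- `D` is locally constant in the `q`-adic topology, off a finite set -/
def PadicLoc (q : ℕ) (D : Set ℚ) : Prop :=
  ∃ F : Set ℚ, F.Finite ∧ ∀ x, x ∉ F →
    ∃ ε : ℚ, 0 < ε ∧ ∀ y : ℚ, padicNorm q (y - x) < ε → (y ∈ D ↔ x ∈ D)

/-- The Boolean algebra generated by the conic conditions and the local conditions at single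
places. -/
inductive Alg : Set ℚ → Prop
  | conic (a b c : ℚ[X]) : Alg (Conic a b c)
  | real (D : Set ℚ) (h : RealLoc D) : Alg D
  | padic (q : ℕ) (hq : q.Prime) (D : Set ℚ) (h : PadicLoc q D) : Alg D
  | compl (D : Set ℚ) (h : Alg D) : Alg Dᶜ
  | inter (D E : Set ℚ) (hD : Alg D) (hE : Alg E) : Alg (D ∩ E)

/-! ### Auxiliary notions -/

/-- the conic `z ^ 2 = a x ^ 2 + b y ^ 2` has a point over `K` -/
def Hs (K : Type) [Field K] (a b : K) : Prop :=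
  ∃ x y z : K, (x ≠ 0 ∨ y ≠ 0 ∨ z ≠ 0) ∧ z ^ 2 = a * x ^ 2 + b * y ^ 2

/-- The set `S` is given by local conditions `R` (real) and `P p` (`p`-adic), which are locally
constant off the finite set `F`; the condition at a large prime `p = 1 mod D` is satisfied by the
numbers `n + (m / p ^ k) ^ 2` for large `k`. -/
def Nice (S : Set ℚ) : Prop :=
  ∃ (R : Set ℚ) (P : ℕ → Set ℚ) (F : Set ℚ) (D : ℕ), F.Finite ∧ D ≠ 0 ∧
    (∀ x, x ∉ F → (x ∈ S ↔ x ∈ R ∧ ∀ p : ℕ, p.Prime → x ∈ P p)) ∧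
    (∀ x, x ∉ F → ∃ ε : ℚ, 0 < ε ∧ ∀ y : ℚ, |y - x| < ε → (y ∈ R ↔ x ∈ R)) ∧
    (∀ p : ℕ, p.Prime → ∀ x, x ∉ F →
      ∃ ε : ℚ, 0 < ε ∧ ∀ y : ℚ, padicNorm p (y - x) < ε → (y ∈ P p ↔ x ∈ P p)) ∧
    ∀ p : ℕ, p.Prime → p ≡ 1 [MOD D] → D < p → ∀ n m : ℤ, m ≠ 0 →
      ∃ K : ℕ, ∀ k : ℕ, K ≤ k → (n : ℚ) + ((m : ℚ) / (p : ℚ) ^ k) ^ 2 ∈ P p

/-! ### Statements -/

/-- Hasse-Minkowski for conics over `ℚ`. -/
def S_HM : Prop := ∀ a b : ℤ, a ≠ 0 → b ≠ 0 → Hs ℝ a b →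
  (∀ (p : ℕ) [Fact p.Prime], Hs ℚ_[p] a b) → Hs ℚ a b

/-- Elements close to one are squares. -/
def S_SQ : Prop := ∀ (p : ℕ) [Fact p.Prime], ∃ ε : ℝ, 0 < ε ∧
  ∀ u : ℚ_[p], ‖u - 1‖ < ε → IsSquare u

/-- The values of a polynomial at close points differ by a square factor. -/
def S_LC : Prop := ∀ (f : ℚ[X]) (x : ℚ), f.eval x ≠ 0 →
  (∃ ε : ℚ, 0 < ε ∧ ∀ y : ℚ, |y - x| < ε → 0 < f.eval y / f.eval x) ∧
  ∀ (p : ℕ) [Fact p.Prime], ∃ ε : ℚ, 0 < ε ∧ ∀ y : ℚ, padicNorm p (y - x) < ε →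
    f.eval y ≠ 0 ∧ IsSquare (((f.eval y / f.eval x : ℚ) : ℚ_[p]))

/-- Values at `n + (m / p ^ k) ^ 2` are `p`-adic squares for large `k`. -/
def S_INF : Prop := ∀ f : ℚ[X], f ≠ 0 → ∃ D : ℕ, D ≠ 0 ∧ ∀ (p : ℕ) [Fact p.Prime],
  p ≡ 1 [MOD D] → D < p → ∀ n m : ℤ, m ≠ 0 → ∃ K : ℕ, ∀ k : ℕ, K ≤ k →
    IsSquare (((f.eval ((n : ℚ) + ((m : ℚ) / (p : ℚ) ^ k) ^ 2) : ℚ)) : ℚ_[p])

/-- A rational number which is a square in all completions is a square. -/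
def S_HM2 : Prop := ∀ a : ℚ, a ≠ 0 → 0 < a → (∀ (p : ℕ) [Fact p.Prime], IsSquare (a : ℚ_[p])) →
  IsSquare a

/-- Solvability of the conic depends on the coefficients up to squares; affine and homogeneous
form. -/
def S_HS : Prop :=
  (∀ (K : Type) [Field K] (a b s t : K), s ≠ 0 → t ≠ 0 →
    (Hs K (a * s ^ 2) (b * t ^ 2) ↔ Hs K a b)) ∧
  (∀ (K : Type) [Field K] [CharZero K] (a b c : K), a ≠ 0 → b ≠ 0 → c ≠ 0 →
    ((∃ y z : K, a * y ^ 2 + b * z ^ 2 = c) ↔ Hs K (a * c) (b * c))) ∧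
  (∀ a b : ℝ, a ≠ 0 → b ≠ 0 → (Hs ℝ a b ↔ 0 < a ∨ 0 < b)) ∧
  (∀ (K : Type) [Field K] [CharZero K] (a b : ℚ), Hs ℚ a b → Hs K (a : K) (b : K))

/-- Conic conditions are nice. -/
def S_CON : Prop := ∀ a b c : ℚ[X], a ≠ 0 → b ≠ 0 → c ≠ 0 → Nice (Conic a b c)

/-- Degenerate conic conditions are nice. -/
def S_DEG : Prop := ∀ a b c : ℚ[X], (a = 0 ∨ b = 0 ∨ c = 0) → Nice (Conic a b c)

/-- Local conditions are nice. -/
def S_LOC : Prop := (∀ D : Set ℚ, RealLoc D → Nice D) ∧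
  ∀ (q : ℕ) (D : Set ℚ), q.Prime → PadicLoc q D → Nice D

/-- The combinatorial core: a non-integer which satisfies the same conditions as an integer. -/
def S_CORE : Prop := ∀ (r : ℕ) (S : Fin r → Set ℚ), (∀ i, Nice (S i)) →
  ∃ (n : ℤ) (x : ℚ), (∀ l : ℤ, x ≠ l) ∧ ∀ i, ((n : ℚ) ∈ S i ↔ x ∈ S i)

/-- The theorem. -/
def S_FIN : Prop := ¬ Alg (Set.range fun n : ℤ => (n : ℚ))

end Pool.Agent.H527R9.CC
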