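import Pool.Agent.H527R9.CC.Defs

/-!
# The integers are not a Boolean combination of conic conditions: more statements
-/

set_option autoImplicit false

namespace Pool.Agent.H527R9.CC

open Polynomial

/-- local solvability at the primes dividing `b` makes `a` a square modulo `b` -/
def S_HMA : Prop := ∀ a b : ℤ, Squarefree b →
  (∀ (p : ℕ) [Fact p.Prime], Hs ℚ_[p] a b) → ∃ t : ℤ, b ∣ t ^ 2 - a ∧ 2 * |t| ≤ |b|

/-- the descent step -/
def S_HMB : Prop := ∀ (K : Type) [Field K] (a b b' t : K), b ≠ 0 → b' ≠ 0 →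
  t ^ 2 - a = b * b' → Hs K a b → Hs K a b'

/-- a rational number is a square in `ℚ_[p]` for all large `p = 1 mod D` -/
def S_QR : Prop := ∀ c : ℚ, c ≠ 0 → ∃ D : ℕ, D ≠ 0 ∧ ∀ (p : ℕ) [Fact p.Prime],
  p ≡ 1 [MOD D] → D < p → IsSquare (c : ℚ_[p])

/-- finite colourings of the integers -/
def S_COL : Prop := ∀ (r : ℕ) (c : ℤ → Fin r → Prop) (F : Set ℤ), F.Finite →
  ∃ n0 m0 : ℤ, 0 < m0 ∧ n0 ∉ F ∧ ∀ n1 m1 : ℤ, 0 < m1 → m0 ∣ n1 - n0 →
    ∃ n : ℤ, n ∉ F ∧ (m0 * m1) ∣ n - n1 ∧ c n = c n0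

/-- square conditions are nice -/
def S_NSQ : Prop := ∀ f : ℚ[X], f ≠ 0 → Nice {x | IsSquare (f.eval x)}

/-- niceness does not see finite sets -/
def S_NCG : Prop := ∀ S T : Set ℚ, {x | ¬ (x ∈ S ↔ x ∈ T)}.Finite → Nice S → Nice T

end Pool.Agent.H527R9.CC
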