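import Pool.Agent.H527R9.CC.MainDefs

/-!
# Conic conditions and power conditions: statements
-/

set_option autoImplicit false

namespace Pool.Agent.H527R9.CC

open Polynomial

/-- the rational numbers `x` for which `y ^ k = f(x)` has a rational solution -/
def PowSet (k : ℕ) (f : ℚ[X]) : Set ℚ := {x | ∃ y : ℚ, y ^ k = f.eval x}

/-- `Q` contains arbitrarily large primes `p = 1 mod D` for which the rational numbers of a given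
finite set are `L`-th powers in `ℚ_[p]`. -/
def Rich3 (Q : Set ℕ) : Prop :=
  ∀ (C : Finset ℚ) (L D N : ℕ), (0 : ℚ) ∉ C → L ≠ 0 → D ≠ 0 → ∃ (p : ℕ) (_ : Fact p.Prime),
    p ∈ Q ∧ N < p ∧ p ≡ 1 [MOD D] ∧ ∀ c ∈ C, ∃ s : ℚ_[p], s ^ L = (c : ℚ_[p])

/-- The Boolean algebra generated by the conic conditions, the power conditions, the local
conditions at single places and the infinite conjunctions of local conditions outside `Q`. -/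
inductive Alg3 (Q : Set ℕ) : Set ℚ → Prop
  | conic (a b c : ℚ[X]) : Alg3 Q (Conic a b c)
  | pow (k : ℕ) (f : ℚ[X]) : Alg3 Q (PowSet k f)
  | padic (q : ℕ) (hq : q.Prime) (D : Set ℚ) (h : PadicLoc q D) : Alg3 Q D
  | fam (D : Set ℚ) (h : FamLoc Q D) : Alg3 Q D
  | compl (D : Set ℚ) (h : Alg3 Q D) : Alg3 Q Dᶜ
  | inter (D E : Set ℚ) (hD : Alg3 Q D) (hE : Alg3 Q E) : Alg3 Q (D ∩ E)

/-- version of `Nice` with power conditions -/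
def Nice3 (Q : Set ℕ) (S : Set ℚ) : Prop :=
  ∃ (R : Set ℚ) (P : ℕ → Set ℚ) (F : Set ℚ) (D L : ℕ) (C : Finset ℚ),
    F.Finite ∧ D ≠ 0 ∧ L ≠ 0 ∧ (0 : ℚ) ∉ C ∧
    (∀ x, x ∉ F → (x ∈ S ↔ x ∈ R ∧ ∀ p : ℕ, p.Prime → x ∈ P p)) ∧
    (∀ x, x ∉ F → ∃ ε : ℚ, 0 < ε ∧ ∀ y : ℚ, |y - x| < ε → (y ∈ R ↔ x ∈ R)) ∧
    (∀ p : ℕ, p.Prime → ∀ x, x ∉ F →
      ∃ ε : ℚ, 0 < ε ∧ ∀ y : ℚ, padicNorm p (y - x) < ε → (y ∈ P p ↔ x ∈ P p)) ∧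
    ∀ (p : ℕ) [Fact p.Prime], p ∈ Q → p ≡ 1 [MOD D] → D < p →
      (∀ c ∈ C, ∃ s : ℚ_[p], s ^ L = (c : ℚ_[p])) → ∀ M : ℕ, M ≠ 0 → L ∣ M → 2 ∣ M →
      ∀ n m : ℤ, m ≠ 0 → ∃ K : ℕ, ∀ k : ℕ, K ≤ k → (n : ℚ) + ((m : ℚ) / (p : ℚ) ^ k) ^ M ∈ P p

/-- elements close to one are `k`-th powers -/
def S_SQK : Prop := ∀ (p : ℕ) [Fact p.Prime] (k : ℕ), k ≠ 0 → ∃ ε : ℝ, 0 < ε ∧
  ∀ u : ℚ_[p], ‖u - 1‖ < ε → ∃ s : ℚ_[p], s ^ k = u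

/-- local constancy of the classes of `k`-th powers -/
def S_LCK : Prop := ∀ (f : ℚ[X]) (x : ℚ) (k : ℕ), k ≠ 0 → f.eval x ≠ 0 →
  ∀ (p : ℕ) [Fact p.Prime], ∃ ε : ℚ, 0 < ε ∧ ∀ y : ℚ, padicNorm p (y - x) < ε →
    f.eval y ≠ 0 ∧ ∃ s : ℚ_[p], s ^ k = ((f.eval y / f.eval x : ℚ) : ℚ_[p])

/-- values at `n + (m / p ^ j) ^ L` are `k`-th powers -/
def S_INFK : Prop := ∀ (f : ℚ[X]) (k : ℕ), f ≠ 0 → k ≠ 0 → ∀ (p : ℕ) [Fact p.Prime],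
  (∃ s : ℚ_[p], s ^ k = (f.leadingCoeff : ℚ_[p])) → ∀ L : ℕ, L ≠ 0 → k ∣ L →
    ∀ n m : ℤ, m ≠ 0 → ∃ K : ℕ, ∀ j : ℕ, K ≤ j →
      ∃ s : ℚ_[p], s ^ k = ((f.eval ((n : ℚ) + ((m : ℚ) / (p : ℚ) ^ j) ^ L) : ℚ) : ℚ_[p])

/-- a rational number which is a `k`-th power everywhere locally is a `k`-th power -/
def S_HMK : Prop := ∀ (a : ℚ) (k : ℕ), a ≠ 0 → k ≠ 0 → (∃ s : ℝ, s ^ k = (a : ℝ)) →
  (∀ (p : ℕ) [Fact p.Prime], ∃ s : ℚ_[p], s ^ k = (a : ℚ_[p])) → ∃ s : ℚ, s ^ k = a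

/-- finitely many polynomials have roots modulo `p` for infinitely many `p` -/
def S_ROOTS : Prop := ∀ s : Finset ℤ[X], (∀ f ∈ s, 0 < f.natDegree) → ∀ N : ℕ,
  ∃ p : ℕ, p.Prime ∧ N < p ∧ ∀ f ∈ s, ∃ r : ℤ, (p : ℤ) ∣ f.eval r

/-- the set of all natural numbers is rich -/
def S_RICH : Prop := Rich3 Set.univ

/-- there are arbitrarily sparse rich sets -/
def S_SPR : Prop := ∀ f : ℕ → ℕ, ∃ q : ℕ → ℕ, StrictMono q ∧ (∀ i, f i ≤ q i) ∧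
  Rich3 (Set.range q)

/-- power conditions are nice -/
def S_NPK : Prop := ∀ (k : ℕ) (f : ℚ[X]), k ≠ 0 → f ≠ 0 → ∀ Q : Set ℕ, Nice3 Q (PowSet k f)

end Pool.Agent.H527R9.CC
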