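import Pool.Agent.H527R9.CC.Defs2

set_option autoImplicit false

namespace Pool.Agent.H527R9.CC

open Polynomial

theorem COL_exists {F : Set ℤ} (hF : F.Finite) (a m : ℤ) (hm : 0 < m) :
    ∃ n : ℤ, n ∉ F ∧ m ∣ n - a := by
  by_contra hc
  push Not at hc
  have h1 : ∀ k : ℤ, a + m * k ∈ F := by
    intro k
    by_contra hk
    exact hc _ hk ⟨k, by ring⟩
  have h2 : Function.Injective fun k : ℤ => a + m * k := by
    intro k l hkl
    have h3 : a + m * k = a + m * l := hkl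
    have h4 : m * k = m * l := by linarith
    exact mul_left_cancel₀ hm.ne' h4
  exact Set.infinite_of_injective_forall_mem h2 h1 hF

/-- the colours of a progression -/
def COL_C {r : ℕ} (c : ℤ → Fin r → Prop) (F : Set ℤ) (a m : ℤ) : Set (Fin r → Prop) :=
  {v | ∃ n : ℤ, n ∉ F ∧ m ∣ n - a ∧ c n = v}

theorem t_COL : S_COL := by
  intro r c F hF
  classical
  have hne : ∃ N : ℕ, ∃ a m : ℤ, 0 < m ∧ (COL_C c F a m).ncard = N := ⟨_, 0, 1, one_pos, rfl⟩
  obtain ⟨a, m, hm, hN⟩ := Nat.find_spec hne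
  have hmin : ∀ a' m' : ℤ, 0 < m' → (COL_C c F a m).ncard ≤ (COL_C c F a' m').ncard := by
    intro a' m' hm'
    rw [hN]
    exact Nat.find_min' hne ⟨a', m', hm', rfl⟩
  obtain ⟨n0, h0, h0'⟩ := COL_exists hF a m hm
  refine ⟨n0, m, hm, h0, ?_⟩
  intro n1 m1 hm1 hd
  have hsub : COL_C c F n1 (m * m1) ⊆ COL_C c F a m := by
    rintro v ⟨n, h1, h2, h3⟩
    refine ⟨n, h1, ?_, h3⟩
    have h4 : m ∣ n - n1 := (Dvd.intro _ rfl).trans h2
    have h5 : n - a = (n - n1) + (n1 - n0) + (n0 - a) := by ring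
    rw [h5]
    exact dvd_add (dvd_add h4 hd) h0'
  have heq := Set.eq_of_subset_of_ncard_le hsub (hmin n1 (m * m1) (mul_pos hm hm1)) (Set.toFinite _)
  have hmem : c n0 ∈ COL_C c F a m := ⟨n0, h0, h0', rfl⟩
  rw [← heq] at hmem
  obtain ⟨n, h1, h2, h3⟩ := hmem
  exact ⟨n, h1, h2, h3⟩

end Pool.Agent.H527R9.CC
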