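import Pool.Agent.H527R9.CC.Defs2

/-!
# The combinatorial core
-/

set_option autoImplicit false

namespace Pool.Agent.H527R9.CC

open Polynomial

theorem CORE_small (q : ℕ) (hq : q.Prime) (ε : ℚ) (hε : 0 < ε) :
    ∃ E : ℕ, (q : ℚ) ^ (-(E : ℤ)) < ε := by
  have h1 : (0:ℚ) ≤ 1 / (q : ℚ) := by positivity
  have h2 : 1 / (q : ℚ) < 1 := by
    rw [div_lt_one (by exact_mod_cast hq.pos)]
    exact_mod_cast hq.one_lt
  obtain ⟨E, hE⟩ := exists_pow_lt_of_lt_one hε h2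
  refine ⟨E, ?_⟩
  rw [zpow_neg, zpow_natCast]
  rwa [one_div, inv_pow] at hE

theorem CORE_norm (q p : ℕ) (hq : q.Prime) (hp : p.Prime) (hne : q ≠ p) (m : ℤ) (E k : ℕ)
    (hm : ((q ^ E : ℕ) : ℤ) ∣ m) :
    padicNorm q (((m : ℚ) / (p : ℚ) ^ k)) ≤ (q : ℚ) ^ (-(E : ℤ)) := by
  have : Fact q.Prime := ⟨hq⟩
  have : Fact p.Prime := ⟨hp⟩
  have h1 : padicNorm q ((p : ℚ) ^ k) = 1 := by
    have : padicNorm q (p : ℚ) = 1 := padicNorm.padicNorm_of_prime_of_ne hne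
    induction k with
    | zero => simp
    | succ k ih => rw [pow_succ, padicNorm.mul, ih, this, one_mul]
  rw [padicNorm.div, h1, div_one]
  exact padicNorm.dvd_iff_norm_le.1 hm

theorem CORE_norm2 (q p : ℕ) (hq : q.Prime) (hp : p.Prime) (hne : q ≠ p) (m : ℤ) (E k : ℕ)
    (hm : ((q ^ E : ℕ) : ℤ) ∣ m) :
    padicNorm q (((m : ℚ) / (p : ℚ) ^ k) ^ 2) ≤ (q : ℚ) ^ (-(E : ℤ)) := by
  have : Fact q.Prime := ⟨hq⟩
  have h := CORE_norm q p hq hp hne m E k hm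
  have h0 : 0 ≤ padicNorm q ((m : ℚ) / (p : ℚ) ^ k) := padicNorm.nonneg _
  have h1 : padicNorm q ((m : ℚ) / (p : ℚ) ^ k) ≤ 1 := by
    refine h.trans ?_
    rw [zpow_neg, zpow_natCast]
    apply inv_le_one_of_one_le₀
    apply one_le_pow₀
    exact_mod_cast hq.one_lt.le
  rw [pow_two, padicNorm.mul]
  calc _ ≤ padicNorm q ((m : ℚ) / (p : ℚ) ^ k) * 1 := mul_le_mul_of_nonneg_left h1 h0
    _ ≤ _ := by rw [mul_one]; exact h

theorem CORE_real (m : ℤ) (p : ℕ) (hp : p.Prime) (δ : ℚ) (hδ : 0 < δ) :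
    ∃ K : ℕ, ∀ k : ℕ, K ≤ k → ((m : ℚ) / (p : ℚ) ^ k) ^ 2 < δ := by
  obtain ⟨K, hK⟩ := exists_nat_gt ((m : ℚ) ^ 2 / δ)
  refine ⟨K, fun k hk => ?_⟩
  have hpk : (k : ℚ) < (p : ℚ) ^ k := by
    exact_mod_cast Nat.lt_pow_self hp.one_lt
  have hp1 : (1 : ℚ) ≤ (p : ℚ) ^ k := one_le_pow₀ (by exact_mod_cast hp.one_lt.le)
  have hKk : (K : ℚ) ≤ k := by exact_mod_cast hk
  have hlt : (m : ℚ) ^ 2 / δ < (p : ℚ) ^ k := by linarith
  rw [div_lt_iff₀ hδ] at hlt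
  rw [div_pow, div_lt_iff₀ (by positivity)]
  calc (m : ℚ) ^ 2 < (p : ℚ) ^ k * δ := hlt
    _ ≤ δ * ((p : ℚ) ^ k) ^ 2 := by
      nlinarith [mul_nonneg hδ.le (mul_nonneg (zero_le_one.trans hp1) (sub_nonneg.2 hp1))]

theorem CORE_fin (n m : ℤ) (hm : m ≠ 0) (p : ℕ) (hp : p.Prime) (F : Set ℚ) (hF : F.Finite) :
    ∃ K : ℕ, ∀ k : ℕ, K ≤ k → (n : ℚ) + ((m : ℚ) / (p : ℚ) ^ k) ^ 2 ∉ F := by
  have hp0 : (0:ℚ) < p := by exact_mod_cast hp.pos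
  have hm0 : (m : ℚ) ≠ 0 := by exact_mod_cast hm
  have hinj : Function.Injective fun k : ℕ => (n : ℚ) + ((m : ℚ) / (p : ℚ) ^ k) ^ 2 := by
    intro j k h
    have h1 : ((m : ℚ) / (p : ℚ) ^ j) ^ 2 = ((m : ℚ) / (p : ℚ) ^ k) ^ 2 := by
      simpa using h
    have h2 : ((p : ℚ) ^ k) ^ 2 = ((p : ℚ) ^ j) ^ 2 := by
      rw [div_pow, div_pow, div_eq_div_iff (by positivity) (by positivity)] at h1
      exact mul_left_cancel₀ (pow_ne_zero 2 hm0) h1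
    have h3 : (p : ℚ) ^ k = (p : ℚ) ^ j :=
      (pow_left_inj₀ (by positivity) (by positivity) two_ne_zero).1 h2
    have h4 : p ^ k = p ^ j := by exact_mod_cast h3
    exact (Nat.pow_right_injective hp.two_le h4).symm
  have hfin := hF.preimage (hinj.injOn (s := (fun k : ℕ => (n : ℚ) + ((m : ℚ) / (p : ℚ) ^ k) ^ 2) ⁻¹' F))
  obtain ⟨B, hB⟩ := hfin.bddAbove
  refine ⟨B + 1, fun k hk hmem => ?_⟩
  have := hB (show k ∈ _ from hmem)
  omega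

theorem CORE_nonint (n m : ℤ) (hm : 0 < m) (p : ℕ) (hp : p.Prime) (hpm : m < p) (k : ℕ)
    (hk : 1 ≤ k) (l : ℤ) : (n : ℚ) + ((m : ℚ) / (p : ℚ) ^ k) ^ 2 ≠ l := by
  intro h
  have hp0 : (0:ℚ) < p := by exact_mod_cast hp.pos
  have h1 : (m : ℚ) ^ 2 = ((l - n : ℤ) : ℚ) * ((p : ℚ) ^ k) ^ 2 := by
    have : ((m : ℚ) / (p : ℚ) ^ k) ^ 2 = ((l - n : ℤ) : ℚ) := by push_cast; linarith
    rw [← this, div_pow]
    field_simp
  have h2 : m ^ 2 = (l - n) * ((p : ℤ) ^ k) ^ 2 := by exact_mod_cast h1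
  have h3 : (p : ℤ) ∣ m ^ 2 := by
    rw [h2]
    apply Dvd.dvd.mul_left
    exact (dvd_pow_self _ (by omega)).trans (dvd_pow_self _ two_ne_zero)
  have h4 : (p : ℤ) ∣ m := (Nat.prime_iff_prime_int.1 hp).dvd_of_dvd_pow h3
  have := Int.le_of_dvd hm h4
  omega

theorem t_CORE (hCOL : S_COL) : S_CORE := by
  intro r S hS
  choose R P F D hF hD hiff hR hP hlast using hS
  have hFfin : (⋃ i, F i).Finite := Set.finite_iUnion hF
  have hFZ : {n : ℤ | (n : ℚ) ∈ ⋃ i, F i}.Finite :=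
    hFfin.preimage (Int.cast_injective.injOn)
  obtain ⟨n0, m0, hm0, hn0F, hcol⟩ := hCOL r (fun n i => (n : ℚ) ∈ S i) _ hFZ
  have hn0 : ∀ i, (n0 : ℚ) ∉ F i := fun i h => hn0F (Set.mem_iUnion.2 ⟨i, h⟩)
  choose δ hδ hδR using fun i => hR i n0 (hn0 i)
  -- negative conditions
  have hneg : ∀ i, ∃ M : ℕ, 0 < M ∧ ((n0 : ℚ) ∈ R i → (n0 : ℚ) ∉ S i → ∀ p : ℕ, p.Prime →
      M < p → ∀ m : ℤ, (M : ℤ) ∣ m → ∀ k : ℕ, (n0 : ℚ) + ((m : ℚ) / (p : ℚ) ^ k) ^ 2 ∉ F i →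
      (n0 : ℚ) + ((m : ℚ) / (p : ℚ) ^ k) ^ 2 ∉ S i) := by
    intro i
    by_cases hh : (n0 : ℚ) ∈ R i ∧ (n0 : ℚ) ∉ S i
    · have : ∃ q : ℕ, q.Prime ∧ (n0 : ℚ) ∉ P i q := by
        by_contra hcon
        push Not at hcon
        exact hh.2 ((hiff i n0 (hn0 i)).2 ⟨hh.1, hcon⟩)
      obtain ⟨q, hq, hnq⟩ := this
      obtain ⟨ε, hε, hεP⟩ := hP i q hq n0 (hn0 i)
      obtain ⟨E, hE⟩ := CORE_small q hq ε hε
      refine ⟨q ^ (E + 1), pow_pos hq.pos _, fun _ _ p hp hpM m hm k hxF hxS => ?_⟩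
      have hqp : q ≠ p := by
        rintro rfl
        have : q ^ 1 ≤ q ^ (E + 1) := Nat.pow_le_pow_right hq.pos (by omega)
        rw [pow_one] at this
        omega
      have h1 := ((hiff i _ hxF).1 hxS).2 q hq
      have hm' : ((q ^ E : ℕ) : ℤ) ∣ m :=
        (Int.natCast_dvd_natCast.2 (pow_dvd_pow q (Nat.le_succ E))).trans hm
      have h2 := CORE_norm2 q p hq hp hqp m E k hm'
      have h3 := (hεP ((n0 : ℚ) + ((m : ℚ) / (p : ℚ) ^ k) ^ 2) (by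
        rw [add_sub_cancel_left]; exact h2.trans_lt hE)).1 h1
      exact hnq h3
    · exact ⟨1, one_pos, fun h1 h2 => absurd ⟨h1, h2⟩ hh⟩
  choose M hM hMS using hneg
  -- the modulus
  obtain ⟨m, hmdef⟩ : ∃ m : ℤ, m = m0 * ∏ i, (M i : ℤ) := ⟨_, rfl⟩
  have hmpos : 0 < m := by
    rw [hmdef]
    exact mul_pos hm0 (Finset.prod_pos fun i _ => by exact_mod_cast hM i)
  have hMm : ∀ i, (M i : ℤ) ∣ m := fun i => by
    rw [hmdef]
    exact (Finset.dvd_prod_of_mem (fun i => (M i : ℤ)) (Finset.mem_univ i)).mul_left _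
  have hm0m : m0 ∣ m := by rw [hmdef]; exact dvd_mul_right _ _
  have hDne : (∏ i, D i) ≠ 0 := Finset.prod_ne_zero_iff.2 fun i _ => hD i
  obtain ⟨p, hp, hpgt, hpD⟩ := Nat.exists_prime_gt_modEq_one (k := ∏ i, D i)
    (m.toNat + ∏ i, D i) hDne
  have hpm : m < p := by
    have : m.toNat < p := by omega
    have h2 := Int.toNat_of_nonneg hmpos.le
    omega
  have hpDi : ∀ i, p ≡ 1 [MOD D i] ∧ D i < p := fun i => by
    have hd : D i ∣ ∏ i, D i := Finset.dvd_prod_of_mem D (Finset.mem_univ i)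
    refine ⟨hpD.of_dvd hd, ?_⟩
    have := Nat.le_of_dvd (Nat.pos_of_ne_zero hDne) hd
    omega
  have hMp : ∀ i, M i < p := fun i => by
    have h1 := Int.le_of_dvd hmpos (hMm i)
    have : (M i : ℤ) < p := by omega
    exact_mod_cast this
  choose K1 hK1 using fun i => hlast i p hp (hpDi i).1 (hpDi i).2 n0 m hmpos.ne'
  choose K2 hK2 using fun i => CORE_real m p hp (δ i) (hδ i)
  obtain ⟨K3, hK3⟩ := CORE_fin n0 m hmpos.ne' p hp _ hFfin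
  obtain ⟨k, hk⟩ : ∃ k : ℕ, k = 1 + K3 + Finset.univ.sup K1 + Finset.univ.sup K2 := ⟨_, rfl⟩
  have hk1 : ∀ i, K1 i ≤ k := fun i => by
    have := Finset.le_sup (f := K1) (Finset.mem_univ i)
    omega
  have hk2 : ∀ i, K2 i ≤ k := fun i => by
    have := Finset.le_sup (f := K2) (Finset.mem_univ i)
    omega
  obtain ⟨x, hx⟩ : ∃ x : ℚ, x = (n0 : ℚ) + ((m : ℚ) / (p : ℚ) ^ k) ^ 2 := ⟨_, rfl⟩
  have hxF : ∀ i, x ∉ F i := fun i h => hK3 k (by omega) (by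
    rw [← hx]; exact Set.mem_iUnion.2 ⟨i, h⟩)
  have hxR : ∀ i, (x ∈ R i ↔ (n0 : ℚ) ∈ R i) := fun i => hδR i x (by
    rw [hx, add_sub_cancel_left, abs_of_nonneg (sq_nonneg _)]
    exact hK2 i k (hk2 i))
  refine ⟨n0, x, fun l => by rw [hx]; exact CORE_nonint n0 m hmpos p hp hpm k (by omega) l,
    fun i => ⟨fun hS0 => ?_, fun hSx => ?_⟩⟩
  · -- positive conditions
    refine (hiff i x (hxF i)).2 ⟨(hxR i).2 ((hiff i n0 (hn0 i)).1 hS0).1, fun ℓ hℓ => ?_⟩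
    by_cases hℓp : ℓ = p
    · subst hℓp
      rw [hx]
      exact hK1 i k (hk1 i)
    · obtain ⟨ε, hε, hεP⟩ := hP i ℓ hℓ x (hxF i)
      obtain ⟨e, he⟩ := CORE_small ℓ hℓ ε hε
      have : Fact ℓ.Prime := ⟨hℓ⟩
      have hcop : IsCoprime ((p : ℤ) ^ (2 * k)) ((ℓ : ℤ) ^ e) := by
        apply IsCoprime.pow
        exact Nat.isCoprime_iff_coprime.2 ((Nat.coprime_primes hp hℓ).2 (Ne.symm hℓp))
      obtain ⟨w, v, hwv⟩ := hcop
      obtain ⟨n, hnF, hnd, hnc⟩ := hcol (n0 + m ^ 2 * w) ((ℓ : ℤ) ^ e)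
        (pow_pos (by exact_mod_cast hℓ.pos) _)
        (by rw [add_sub_cancel_left]; exact ((hm0m.trans (dvd_pow_self m two_ne_zero))).mul_right _)
      have hnS : (n : ℚ) ∈ S i := by
        have := congrFun hnc i
        simp only [eq_iff_iff] at this
        exact this.2 hS0
      have hnFi : (n : ℚ) ∉ F i := fun h => hnF (Set.mem_iUnion.2 ⟨i, h⟩)
      have hnP := ((hiff i n hnFi).1 hnS).2 ℓ hℓ
      refine (hεP n (lt_of_le_of_lt ?_ he)).1 hnP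
      have hp0 : (p : ℚ) ≠ 0 := by exact_mod_cast hp.ne_zero
      have hsplit : (n : ℚ) - x = ((n - (n0 + m ^ 2 * w) : ℤ) : ℚ) +
          ((-(m ^ 2 * (v * (ℓ : ℤ) ^ e)) : ℤ) : ℚ) / (p : ℚ) ^ (2 * k) := by
        have hwv' : (w : ℚ) * (p : ℚ) ^ (2 * k) + v * (ℓ : ℚ) ^ e = 1 := by exact_mod_cast hwv
        have : (v : ℚ) * (ℓ : ℚ) ^ e = 1 - w * (p : ℚ) ^ (2 * k) := by linarith
        rw [hx]
        push_cast
        rw [this, div_pow, ← pow_mul, mul_comm k 2]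
        field_simp
        ring
      rw [hsplit]
      refine padicNorm.nonarchimedean.trans (max_le ?_ ?_)
      · refine padicNorm.dvd_iff_norm_le.1 ?_
        push_cast
        exact (dvd_mul_left _ _).trans hnd
      · refine CORE_norm ℓ p hℓ hp hℓp _ e _ ?_
        push_cast
        rw [dvd_neg]
        exact ((dvd_mul_left _ _).mul_left _)
  · -- negative conditions
    by_contra hS0
    by_cases hR0 : (n0 : ℚ) ∈ R i
    · refine hMS i hR0 hS0 p hp (hMp i) m (hMm i) k ?_ ?_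
      · rw [← hx]; exact hxF i
      · rw [← hx]; exact hSx
    · exact hR0 ((hxR i).1 ((hiff i x (hxF i)).1 hSx).1)

end Pool.Agent.H527R9.CC
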