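import Pool.Agent.H527R9.CC.MainDefs
import Pool.Agent.H527R9.CC.T_COL
import Pool.Agent.H527R9.CC.T_CORE

/-!
# The integers are not a Boolean combination of conic conditions: combinatorial part
-/

set_option autoImplicit false

namespace Pool.Agent.H527R9.CC

open Polynomial

/-- a colouring of the integers, relative to a progression in which the colours `T` are dense -/
theorem col_rel (r : ℕ) (c : ℤ → Fin r → Prop) (F : Set ℤ) (hF : F.Finite)
    (T : Set (Fin r → Prop)) (a1 b1 : ℤ) (hb1 : 0 < b1)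
    (hT : ∀ a b : ℤ, 0 < b → b1 ∣ b → b1 ∣ a - a1 → ∃ n : ℤ, b ∣ n - a ∧ c n ∈ T) :
    ∃ n0 m0 : ℤ, 0 < m0 ∧ n0 ∉ F ∧ c n0 ∈ T ∧ ∀ n1 m1 : ℤ, 0 < m1 → m0 ∣ n1 - n0 →
      ∃ n : ℤ, n ∉ F ∧ (m0 * m1) ∣ n - n1 ∧ c n = c n0 := by
  classical
  have hne : ∃ N : ℕ, ∃ a m : ℤ, 0 < m ∧ b1 ∣ m ∧ b1 ∣ a - a1 ∧ (COL_C c F a m).ncard = N :=
    ⟨_, a1, b1, hb1, dvd_refl _, by simp, rfl⟩
  obtain ⟨a, m, hm, hbm, hba, hN⟩ := Nat.find_spec hne
  have hmin : ∀ a' m' : ℤ, 0 < m' → b1 ∣ m' → b1 ∣ a' - a1 →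
      (COL_C c F a m).ncard ≤ (COL_C c F a' m').ncard := by
    intro a' m' hm' h1 h2
    rw [hN]
    exact Nat.find_min' hne ⟨a', m', hm', h1, h2, rfl⟩
  -- a subprogression avoiding `F`
  have havoid : ∃ a2 m2 : ℤ, 0 < m2 ∧ m ∣ m2 ∧ m ∣ a2 - a ∧ ∀ n : ℤ, m2 ∣ n - a2 → n ∉ F := by
    obtain ⟨B, hB⟩ : ∃ B : ℤ, 0 < B ∧ ∀ f ∈ F, |f| < B := by
      obtain ⟨B, hB⟩ := (hF.image (fun f => |f|)).bddAbove
      refine ⟨|B| + 1, by positivity, fun f hf => ?_⟩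
      have h1 : |f| ≤ B := hB ⟨f, hf, rfl⟩
      have := le_abs_self B
      omega
    -- choose a2 = a + m * t with a2 >= B and m2 = m * s with m2 > a2 + B
    refine ⟨a + m * (|a| + B), m * (a + m * (|a| + B) + B), ?_, dvd_mul_right _ _,
      ⟨|a| + B, by ring⟩, ?_⟩
    · apply mul_pos hm
      have h1 : |a| + B ≤ m * (|a| + B) := by
        have : 0 ≤ |a| + B := by have := abs_nonneg a; omega
        nlinarith
      have h2 := neg_abs_le a
      omega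
    · intro n hn hnF
      have h1 : |a| + B ≤ m * (|a| + B) := by
        have : 0 ≤ |a| + B := by have := abs_nonneg a; omega
        nlinarith
      have h2 := neg_abs_le a
      have h3 := hB.2 n hnF
      obtain ⟨A, hA⟩ : ∃ A, A = a + m * (|a| + B) := ⟨_, rfl⟩
      rw [← hA] at hn
      have hAB : B ≤ A := by omega
      have h4 : A + B ∣ n - A := (dvd_mul_left _ _).trans hn
      have h5 : |n - A| < A + B := by
        rw [abs_lt] at h3 ⊢
        constructor <;> omega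
      have h6 := Int.eq_zero_of_abs_lt_dvd h4 h5
      rw [abs_lt] at h3
      omega
  obtain ⟨a2, m2, hm2, hmm2, haa2, hF2⟩ := havoid
  obtain ⟨n0, hn0, hn0T⟩ := hT a2 m2 hm2 (hbm.trans hmm2) (by
    have : a2 - a1 = (a2 - a) + (a - a1) := by ring
    rw [this]
    exact dvd_add (hbm.trans haa2) hba)
  have h0 : n0 ∉ F := hF2 n0 hn0
  have h0' : m ∣ n0 - a := by
    have : n0 - a = (n0 - a2) + (a2 - a) := by ring
    rw [this]
    exact dvd_add (hmm2.trans hn0) haa2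
  refine ⟨n0, m, hm, h0, hn0T, ?_⟩
  intro n1 m1 hm1 hd
  have hsub : COL_C c F n1 (m * m1) ⊆ COL_C c F a m := by
    rintro v ⟨n, h1, h2, h3⟩
    refine ⟨n, h1, ?_, h3⟩
    have h4 : m ∣ n - n1 := (Dvd.intro _ rfl).trans h2
    have h5 : n - a = (n - n1) + (n1 - n0) + (n0 - a) := by ring
    rw [h5]
    exact dvd_add (dvd_add h4 hd) h0'
  have heq := Set.eq_of_subset_of_ncard_le hsub (hmin n1 (m * m1) (mul_pos hm hm1)
    (hbm.trans (dvd_mul_right _ _)) (by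
      have h5 : n1 - a1 = (n1 - n0) + (n0 - a) + (a - a1) := by ring
      rw [h5]
      exact dvd_add (dvd_add (hbm.trans hd) (hbm.trans h0')) hba)) (Set.toFinite _)
  have hmem : c n0 ∈ COL_C c F a m := ⟨n0, h0, h0', rfl⟩
  rw [← heq] at hmem
  obtain ⟨n, h1, h2, h3⟩ := hmem
  exact ⟨n, h1, h2, h3⟩

theorem core_rel (Q : Set ℕ) (hQ : Rich Q) (r : ℕ) (S : Fin r → Set ℚ)
    (hS : ∀ i, NiceQ Q (S i)) (T : Set (Fin r → Prop)) (a1 b1 : ℤ) (hb1 : 0 < b1)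
    (hT : ∀ a b : ℤ, 0 < b → b1 ∣ b → b1 ∣ a - a1 →
      ∃ n : ℤ, b ∣ n - a ∧ (fun i => (n : ℚ) ∈ S i) ∈ T) :
    ∃ x : ℚ, (∀ l : ℤ, x ≠ l) ∧ (fun i => x ∈ S i) ∈ T := by
  choose R P F D hF hD hiff hR hP hlast using hS
  have hFfin : (⋃ i, F i).Finite := Set.finite_iUnion hF
  have hFZ : {n : ℤ | (n : ℚ) ∈ ⋃ i, F i}.Finite :=
    hFfin.preimage (Int.cast_injective.injOn)
  obtain ⟨n0, m0, hm0, hn0F, hn0T, hcol⟩ :=
    col_rel r (fun n i => (n : ℚ) ∈ S i) _ hFZ T a1 b1 hb1 hT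
  have hn0 : ∀ i, (n0 : ℚ) ∉ F i := fun i h => hn0F (Set.mem_iUnion.2 ⟨i, h⟩)
  choose δ hδ hδR using fun i => hR i n0 (hn0 i)
  -- negative conditions
  have hneg : ∀ i, ∃ M : ℕ, 0 < M ∧ ((n0 : ℚ) ∈ R i → (n0 : ℚ) ∉ S i → ∀ p : ℕ, p.Prime →
      M < p → ∀ m : ℤ, (M : ℤ) ∣ m → ∀ k : ℕ, (n0 : ℚ) + ((m : ℚ) / (p : ℚ) ^ k) ^ 2 ∉ F i →
      (n0 : ℚ) + ((m : ℚ) / (p : ℚ) ^ k) ^ 2 ∉ S i) := by
    intro i
    by_cases hh : (n0 : ℚ) ∈ R i ∧ (n0 : ℚ) ∉ S i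
    · have : ∃ q : ℕ, q.Prime ∧ (n0 : ℚ) ∉ P i q := by
        by_contra hcon
        push Not at hcon
        exact hh.2 ((hiff i n0 (hn0 i)).2 ⟨hh.1, hcon⟩)
      obtain ⟨q, hq, hnq⟩ := this
      obtain ⟨ε, hε, hεP⟩ := hP i q hq n0 (hn0 i)
      obtain ⟨E, hE⟩ := CORE_small q hq ε hε
      refine ⟨q ^ (E + 1), pow_pos hq.pos _, fun _ _ p hp hpM m hm k hxF hxS => ?_⟩
      have hqp : q ≠ p := by
        rintro rfl
        have : q ^ 1 ≤ q ^ (E + 1) := Nat.pow_le_pow_right hq.pos (by omega)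
        rw [pow_one] at this
        omega
      have h1 := ((hiff i _ hxF).1 hxS).2 q hq
      have hm' : ((q ^ E : ℕ) : ℤ) ∣ m :=
        (Int.natCast_dvd_natCast.2 (pow_dvd_pow q (Nat.le_succ E))).trans hm
      have h2 := CORE_norm2 q p hq hp hqp m E k hm'
      have h3 := (hεP ((n0 : ℚ) + ((m : ℚ) / (p : ℚ) ^ k) ^ 2) (by
        rw [add_sub_cancel_left]; exact h2.trans_lt hE)).1 h1
      exact hnq h3
    · exact ⟨1, one_pos, fun h1 h2 => absurd ⟨h1, h2⟩ hh⟩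
  choose M hM hMS using hneg
  -- the modulus
  obtain ⟨m, hmdef⟩ : ∃ m : ℤ, m = m0 * ∏ i, (M i : ℤ) := ⟨_, rfl⟩
  have hmpos : 0 < m := by
    rw [hmdef]
    exact mul_pos hm0 (Finset.prod_pos fun i _ => by exact_mod_cast hM i)
  have hMm : ∀ i, (M i : ℤ) ∣ m := fun i => by
    rw [hmdef]
    exact (Finset.dvd_prod_of_mem (fun i => (M i : ℤ)) (Finset.mem_univ i)).mul_left _
  have hm0m : m0 ∣ m := by rw [hmdef]; exact dvd_mul_right _ _
  have hDne : (∏ i, D i) ≠ 0 := Finset.prod_ne_zero_iff.2 fun i _ => hD i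
  obtain ⟨p, hpQ, hp, hpgt, hpD⟩ := hQ (∏ i, D i) (m.toNat + ∏ i, D i) hDne
  have hpm : m < p := by
    have : m.toNat < p := by omega
    have h2 := Int.toNat_of_nonneg hmpos.le
    omega
  have hpDi : ∀ i, p ≡ 1 [MOD D i] ∧ D i < p := fun i => by
    have hd : D i ∣ ∏ i, D i := Finset.dvd_prod_of_mem D (Finset.mem_univ i)
    refine ⟨hpD.of_dvd hd, ?_⟩
    have := Nat.le_of_dvd (Nat.pos_of_ne_zero hDne) hd
    omega
  have hMp : ∀ i, M i < p := fun i => by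
    have h1 := Int.le_of_dvd hmpos (hMm i)
    have : (M i : ℤ) < p := by omega
    exact_mod_cast this
  choose K1 hK1 using fun i => hlast i p hpQ hp (hpDi i).1 (hpDi i).2 n0 m hmpos.ne'
  choose K2 hK2 using fun i => CORE_real m p hp (δ i) (hδ i)
  obtain ⟨K3, hK3⟩ := CORE_fin n0 m hmpos.ne' p hp _ hFfin
  obtain ⟨k, hk⟩ : ∃ k : ℕ, k = 1 + K3 + Finset.univ.sup K1 + Finset.univ.sup K2 := ⟨_, rfl⟩
  have hk1 : ∀ i, K1 i ≤ k := fun i => by
    have := Finset.le_sup (f := K1) (Finset.mem_univ i)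
    omega
  have hk2 : ∀ i, K2 i ≤ k := fun i => by
    have := Finset.le_sup (f := K2) (Finset.mem_univ i)
    omega
  obtain ⟨x, hx⟩ : ∃ x : ℚ, x = (n0 : ℚ) + ((m : ℚ) / (p : ℚ) ^ k) ^ 2 := ⟨_, rfl⟩
  have hxF : ∀ i, x ∉ F i := fun i h => hK3 k (by omega) (by
    rw [← hx]; exact Set.mem_iUnion.2 ⟨i, h⟩)
  have hxR : ∀ i, (x ∈ R i ↔ (n0 : ℚ) ∈ R i) := fun i => hδR i x (by
    rw [hx, add_sub_cancel_left, abs_of_nonneg (sq_nonneg _)]
    exact hK2 i k (hk2 i))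
  have hall : ∀ i, ((n0 : ℚ) ∈ S i ↔ x ∈ S i) := by
    refine fun i => ⟨fun hS0 => ?_, fun hSx => ?_⟩
    · -- positive conditions
      refine (hiff i x (hxF i)).2 ⟨(hxR i).2 ((hiff i n0 (hn0 i)).1 hS0).1, fun ℓ hℓ => ?_⟩
      by_cases hℓp : ℓ = p
      · subst hℓp
        rw [hx]
        exact hK1 i k (hk1 i)
      · obtain ⟨ε, hε, hεP⟩ := hP i ℓ hℓ x (hxF i)
        obtain ⟨e, he⟩ := CORE_small ℓ hℓ ε hε
        have : Fact ℓ.Prime := ⟨hℓ⟩
        have hcop : IsCoprime ((p : ℤ) ^ (2 * k)) ((ℓ : ℤ) ^ e) := by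
          apply IsCoprime.pow
          exact Nat.isCoprime_iff_coprime.2 ((Nat.coprime_primes hp hℓ).2 (Ne.symm hℓp))
        obtain ⟨w, v, hwv⟩ := hcop
        obtain ⟨n, hnF, hnd, hnc⟩ := hcol (n0 + m ^ 2 * w) ((ℓ : ℤ) ^ e)
          (pow_pos (by exact_mod_cast hℓ.pos) _)
          (by rw [add_sub_cancel_left]
              exact ((hm0m.trans (dvd_pow_self m two_ne_zero))).mul_right _)
        have hnS : (n : ℚ) ∈ S i := by
          have := congrFun hnc i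
          simp only [eq_iff_iff] at this
          exact this.2 hS0
        have hnFi : (n : ℚ) ∉ F i := fun h => hnF (Set.mem_iUnion.2 ⟨i, h⟩)
        have hnP := ((hiff i n hnFi).1 hnS).2 ℓ hℓ
        refine (hεP n (lt_of_le_of_lt ?_ he)).1 hnP
        have hp0 : (p : ℚ) ≠ 0 := by exact_mod_cast hp.ne_zero
        have hsplit : (n : ℚ) - x = ((n - (n0 + m ^ 2 * w) : ℤ) : ℚ) +
            ((-(m ^ 2 * (v * (ℓ : ℤ) ^ e)) : ℤ) : ℚ) / (p : ℚ) ^ (2 * k) := by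
          have hwv' : (w : ℚ) * (p : ℚ) ^ (2 * k) + v * (ℓ : ℚ) ^ e = 1 := by
            exact_mod_cast hwv
          have : (v : ℚ) * (ℓ : ℚ) ^ e = 1 - w * (p : ℚ) ^ (2 * k) := by linarith
          rw [hx]
          push_cast
          rw [this, div_pow, ← pow_mul, mul_comm k 2]
          field_simp
          ring
        rw [hsplit]
        refine padicNorm.nonarchimedean.trans (max_le ?_ ?_)
        · refine padicNorm.dvd_iff_norm_le.1 ?_
          push_cast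
          exact (dvd_mul_left _ _).trans hnd
        · refine CORE_norm ℓ p hℓ hp hℓp _ e _ ?_
          push_cast
          rw [dvd_neg]
          exact ((dvd_mul_left _ _).mul_left _)
    · -- negative conditions
      by_contra hS0
      by_cases hR0 : (n0 : ℚ) ∈ R i
      · refine hMS i hR0 hS0 p hp (hMp i) m (hMm i) k ?_ ?_
        · rw [← hx]; exact hxF i
        · rw [← hx]; exact hSx
      · exact hR0 ((hxR i).1 ((hiff i x (hxF i)).1 hSx).1)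
  refine ⟨x, fun l => by rw [hx]; exact CORE_nonint n0 m hmpos p hp hpm k (by omega) l, ?_⟩
  have : (fun i => x ∈ S i) = fun i => (n0 : ℚ) ∈ S i := funext fun i => propext (hall i).symm
  rw [this]
  exact hn0T

theorem nice_niceQ (Q : Set ℕ) (S : Set ℚ) (h : Nice S) : NiceQ Q S := by
  obtain ⟨R, P, F, D, h1, h2, h3, h4, h5, h6⟩ := h
  exact ⟨R, P, F, D, h1, h2, h3, h4, h5, fun p _ hp => h6 p hp⟩

theorem fam_niceQ (Q : Set ℕ) (S : Set ℚ) (h : FamLoc Q S) : NiceQ Q S := by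
  classical
  obtain ⟨R, P, F, h1, h2, h3, rfl⟩ := h
  refine ⟨R, fun p => if p ∈ Q then Set.univ else P p, F, 1, h1, one_ne_zero, ?_, h2, ?_, ?_⟩
  · intro x _
    refine ⟨fun hx => ⟨hx.1, fun p hp => ?_⟩, fun hx => ⟨hx.1, fun p hp hpQ => ?_⟩⟩
    · by_cases hpQ : p ∈ Q
      · simp [hpQ]
      · simp only [hpQ, if_false]
        exact hx.2 p hp hpQ
    · have := hx.2 p hp
      simpa only [hpQ, if_false] using this
  · intro p hp x hx
    by_cases hpQ : p ∈ Q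
    · exact ⟨1, one_pos, fun y _ => by simp [hpQ]⟩
    · simp only [hpQ, if_false]
      exact h3 p hp x hx
  · intro p hpQ _ _ _ n m _
    exact ⟨0, fun k _ => by simp [hpQ]⟩

theorem algQ_fin (hCON : S_CON) (hDEG : S_DEG) (hLOC : S_LOC) (Q : Set ℕ) (A : Set ℚ)
    (hA : AlgQ Q A) : ∃ (r : ℕ) (S : Fin r → Set ℚ), (∀ i, NiceQ Q (S i)) ∧
      ∀ x y : ℚ, (∀ i, (x ∈ S i ↔ y ∈ S i)) → (x ∈ A ↔ y ∈ A) := by
  induction hA with
  | conic a b c =>
    refine ⟨1, fun _ => Conic a b c, fun _ => nice_niceQ Q _ ?_, fun x y h => h 0⟩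
    by_cases h : a = 0 ∨ b = 0 ∨ c = 0
    · exact hDEG a b c h
    · push Not at h
      exact hCON a b c h.1 h.2.1 h.2.2
  | padic q hq D h => exact ⟨1, fun _ => D, fun _ => nice_niceQ Q _ (hLOC.2 q D hq h),
      fun x y h => h 0⟩
  | fam D h => exact ⟨1, fun _ => D, fun _ => fam_niceQ Q D h, fun x y h => h 0⟩
  | compl D _ ih =>
    obtain ⟨r, S, h1, h2⟩ := ih
    exact ⟨r, S, h1, fun x y h => not_congr (h2 x y h)⟩
  | inter D E _ _ ihD ihE =>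
    obtain ⟨r, S, h1, h2⟩ := ihD
    obtain ⟨r', S', h1', h2'⟩ := ihE
    refine ⟨r + r', Fin.append S S', fun i => ?_, fun x y h => ?_⟩
    · refine Fin.addCases (fun i => ?_) (fun i => ?_) i
      · rw [Fin.append_left]; exact h1 i
      · rw [Fin.append_right]; exact h1' i
    · refine and_congr (h2 x y fun i => ?_) (h2' x y fun i => ?_)
      · have := h (Fin.castAdd r' i)
        rwa [Fin.append_left] at this
      · have := h (Fin.natAdd r i)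
        rwa [Fin.append_right] at this

/-- A set of the algebra all of whose elements are integers is nowhere dense in the profinite
topology. -/
theorem main_rel (hCON : S_CON) (hDEG : S_DEG) (hLOC : S_LOC) (Q : Set ℕ) (hQ : Rich Q)
    (A : Set ℚ) (hA : AlgQ Q A) (hAZ : A ⊆ Set.range fun n : ℤ => (n : ℚ)) (a1 b1 : ℤ)
    (hb1 : 0 < b1) : ∃ a b : ℤ, 0 < b ∧ b1 ∣ b ∧ b1 ∣ a - a1 ∧
      ∀ n : ℤ, b ∣ n - a → (n : ℚ) ∉ A := by
  by_contra hcon
  push Not at hcon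
  obtain ⟨r, S, hS, hdet⟩ := algQ_fin hCON hDEG hLOC Q A hA
  obtain ⟨x, hx, y, hy, hyx⟩ := core_rel Q hQ r S hS {v | ∃ y ∈ A, (fun i => y ∈ S i) = v} a1 b1 hb1
    (fun a b hb h1 h2 => by
      obtain ⟨n, hn1, hn2⟩ := hcon a b hb h1 h2
      exact ⟨n, hn1, n, hn2, rfl⟩)
  have hxA : x ∈ A := (hdet x y fun i => (congrFun hyx i).symm ▸ Iff.rfl).2 hy
  obtain ⟨l, hl⟩ := hAZ hxA
  exact hx l hl.symm

end Pool.Agent.H527R9.CC
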