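import Pool.Agent.H527R9.CC.Defs

/-!
# The integers are not a Boolean combination of conic conditions: main definitions
-/

set_option autoImplicit false

namespace Pool.Agent.H527R9.CC

open Polynomial

/-- `Q` contains, for every `D`, arbitrarily large primes `p = 1 mod D`. -/
def Rich (Q : Set ℕ) : Prop :=
  ∀ D N : ℕ, D ≠ 0 → ∃ p ∈ Q, p.Prime ∧ N < p ∧ p ≡ 1 [MOD D]

/-- `S` is the set of the rational numbers satisfying a real condition `R` and, for all primes `p`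
outside `Q`, a `p`-adic condition `P p` (all of them locally constant off one finite set). -/
def FamLoc (Q : Set ℕ) (S : Set ℚ) : Prop :=
  ∃ (R : Set ℚ) (P : ℕ → Set ℚ) (F : Set ℚ), F.Finite ∧
    (∀ x, x ∉ F → ∃ ε : ℚ, 0 < ε ∧ ∀ y : ℚ, |y - x| < ε → (y ∈ R ↔ x ∈ R)) ∧
    (∀ p : ℕ, p.Prime → ∀ x, x ∉ F →
      ∃ ε : ℚ, 0 < ε ∧ ∀ y : ℚ, padicNorm p (y - x) < ε → (y ∈ P p ↔ x ∈ P p)) ∧
    S = {x | x ∈ R ∧ ∀ p : ℕ, p.Prime → p ∉ Q → x ∈ P p}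

/-- The Boolean algebra generated by the conic conditions, the local conditions at single places
and the infinite conjunctions of local conditions at the primes outside `Q`. -/
inductive AlgQ (Q : Set ℕ) : Set ℚ → Prop
  | conic (a b c : ℚ[X]) : AlgQ Q (Conic a b c)
  | padic (q : ℕ) (hq : q.Prime) (D : Set ℚ) (h : PadicLoc q D) : AlgQ Q D
  | fam (D : Set ℚ) (h : FamLoc Q D) : AlgQ Q D
  | compl (D : Set ℚ) (h : AlgQ Q D) : AlgQ Q Dᶜ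
  | inter (D E : Set ℚ) (hD : AlgQ Q D) (hE : AlgQ Q E) : AlgQ Q (D ∩ E)

/-- relative version of `Nice` -/
def NiceQ (Q : Set ℕ) (S : Set ℚ) : Prop :=
  ∃ (R : Set ℚ) (P : ℕ → Set ℚ) (F : Set ℚ) (D : ℕ), F.Finite ∧ D ≠ 0 ∧
    (∀ x, x ∉ F → (x ∈ S ↔ x ∈ R ∧ ∀ p : ℕ, p.Prime → x ∈ P p)) ∧
    (∀ x, x ∉ F → ∃ ε : ℚ, 0 < ε ∧ ∀ y : ℚ, |y - x| < ε → (y ∈ R ↔ x ∈ R)) ∧
    (∀ p : ℕ, p.Prime → ∀ x, x ∉ F →
      ∃ ε : ℚ, 0 < ε ∧ ∀ y : ℚ, padicNorm p (y - x) < ε → (y ∈ P p ↔ x ∈ P p)) ∧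
    ∀ p ∈ Q, p.Prime → p ≡ 1 [MOD D] → D < p → ∀ n m : ℤ, m ≠ 0 →
      ∃ K : ℕ, ∀ k : ℕ, K ≤ k → (n : ℚ) + ((m : ℚ) / (p : ℚ) ^ k) ^ 2 ∈ P p

end Pool.Agent.H527R9.CC
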