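import Pool.Agent.H527R9.CC.Defs2

/-!
CON: conic conditions are nice.
-/

set_option autoImplicit false

namespace Pool.Agent.H527R9.CC

open Polynomial

theorem CON_scale {K : Type} [Field K] [CharZero K] (hHS : S_HS) (α β : ℚ) :
    Hs K ((α.num * α.den : ℤ) : K) ((β.num * β.den : ℤ) : K) ↔ Hs K (α : K) (β : K) := by
  have hs : (α.den : K) ≠ 0 := Nat.cast_ne_zero.2 α.den_nz
  have ht : (β.den : K) ≠ 0 := Nat.cast_ne_zero.2 β.den_nz
  rw [← hHS.1 K (α : K) (β : K) α.den β.den hs ht]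
  have e : ∀ γ : ℚ, ((γ.num * γ.den : ℤ) : K) = (γ : K) * (γ.den : K) ^ 2 := by
    intro γ
    have hg : (γ.den : K) ≠ 0 := Nat.cast_ne_zero.2 γ.den_nz
    have h1 : (γ : K) = γ.num / γ.den := Rat.cast_def γ
    rw [h1]
    push_cast
    field_simp
  rw [e α, e β]

theorem CON_hm (hHM : S_HM) (hHS : S_HS) (α β : ℚ) (hα : α ≠ 0) (hβ : β ≠ 0)
    (hR : Hs ℝ (α : ℝ) (β : ℝ))
    (hP : ∀ (p : ℕ) [Fact p.Prime], Hs ℚ_[p] (α : ℚ_[p]) (β : ℚ_[p])) : Hs ℚ α β := by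
  have h1 : α.num * (α.den : ℤ) ≠ 0 :=
    mul_ne_zero (Rat.num_ne_zero.2 hα) (by exact_mod_cast α.den_nz)
  have h2 : β.num * (β.den : ℤ) ≠ 0 :=
    mul_ne_zero (Rat.num_ne_zero.2 hβ) (by exact_mod_cast β.den_nz)
  have h3 := hHM (α.num * α.den) (β.num * β.den) h1 h2 ((CON_scale hHS α β).2 hR)
    (fun p _ => (CON_scale hHS α β).2 (hP p))
  have h4 := (CON_scale (K := ℚ) hHS α β).1 h3
  simpa using h4

theorem CON_pos {u v : ℚ} (h : 0 < u / v) : 0 < u ↔ 0 < v := by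
  rcases div_pos_iff.1 h with h1 | h1
  · exact ⟨fun _ => h1.2, fun _ => h1.1⟩
  · exact ⟨fun h2 => absurd h2 (not_lt.2 h1.1.le), fun h2 => absurd h2 (not_lt.2 h1.2.le)⟩

theorem CON_sq {p : ℕ} [Fact p.Prime] {u v : ℚ} (hu : u ≠ 0) (hv : v ≠ 0)
    (h : IsSquare (((u / v : ℚ)) : ℚ_[p])) : ∃ s : ℚ_[p], s ≠ 0 ∧ (u : ℚ_[p]) = v * s ^ 2 := by
  obtain ⟨s, hs⟩ := h
  have hu' : (u : ℚ_[p]) ≠ 0 := Rat.cast_ne_zero.2 hu
  have hv' : (v : ℚ_[p]) ≠ 0 := Rat.cast_ne_zero.2 hv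
  rw [Rat.cast_div] at hs
  refine ⟨s, ?_, ?_⟩
  · rintro rfl
    rw [mul_zero, div_eq_zero_iff] at hs
    rcases hs with hs | hs
    · exact hu' hs
    · exact hv' hs
  · rw [sq, ← hs]
    field_simp

theorem t_CON (hHM : S_HM) (hLC : S_LC) (hINF : S_INF) (hHS : S_HS) : S_CON := by
  intro a b c ha hb hc
  have hac : a * c ≠ 0 := mul_ne_zero ha hc
  obtain ⟨D, hD, hinf⟩ := hINF (a * c) hac
  refine ⟨{x | Hs ℝ (((a * c).eval x : ℚ) : ℝ) (((b * c).eval x : ℚ) : ℝ)},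
    fun p => {x | ∀ _h : Fact p.Prime,
      Hs ℚ_[p] (((a * c).eval x : ℚ) : ℚ_[p]) (((b * c).eval x : ℚ) : ℚ_[p])},
    {x | IsRoot (a * b * c) x}, D, ?_, hD, ?_, ?_, ?_, ?_⟩
  · exact Polynomial.finite_setOf_isRoot (mul_ne_zero (mul_ne_zero ha hb) hc)
  · intro x hx
    have hx' : ¬ (a * b * c).eval x = 0 := hx
    rw [eval_mul, eval_mul] at hx'
    have hax : a.eval x ≠ 0 := fun h => hx' (by rw [h]; ring)
    have hbx : b.eval x ≠ 0 := fun h => hx' (by rw [h]; ring)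
    have hcx : c.eval x ≠ 0 := fun h => hx' (by rw [h]; ring)
    have hA : (a * c).eval x ≠ 0 := by rw [eval_mul]; exact mul_ne_zero hax hcx
    have hB : (b * c).eval x ≠ 0 := by rw [eval_mul]; exact mul_ne_zero hbx hcx
    have e1 : x ∈ Conic a b c ↔ Hs ℚ ((a * c).eval x) ((b * c).eval x) := by
      rw [eval_mul, eval_mul]
      exact hHS.2.1 ℚ (a.eval x) (b.eval x) (c.eval x) hax hbx hcx
    rw [e1]
    constructor
    · intro h
      refine ⟨hHS.2.2.2 ℝ _ _ h, ?_⟩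
      intro p hp hF
      exact hHS.2.2.2 ℚ_[p] _ _ h
    · rintro ⟨h1, h2⟩
      exact CON_hm hHM hHS _ _ hA hB h1 (fun p hF => h2 p hF.out hF)
  · intro x hx
    have hx' : ¬ (a * b * c).eval x = 0 := hx
    rw [eval_mul, eval_mul] at hx'
    have hax : a.eval x ≠ 0 := fun h => hx' (by rw [h]; ring)
    have hbx : b.eval x ≠ 0 := fun h => hx' (by rw [h]; ring)
    have hcx : c.eval x ≠ 0 := fun h => hx' (by rw [h]; ring)
    have hA : (a * c).eval x ≠ 0 := by rw [eval_mul]; exact mul_ne_zero hax hcx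
    have hB : (b * c).eval x ≠ 0 := by rw [eval_mul]; exact mul_ne_zero hbx hcx
    obtain ⟨ε1, hε1, H1⟩ := (hLC (a * c) x hA).1
    obtain ⟨ε2, hε2, H2⟩ := (hLC (b * c) x hB).1
    refine ⟨min ε1 ε2, lt_min hε1 hε2, ?_⟩
    intro y hy
    have p1 := H1 y (lt_of_lt_of_le hy (min_le_left _ _))
    have p2 := H2 y (lt_of_lt_of_le hy (min_le_right _ _))
    have hAy : (a * c).eval y ≠ 0 := by
      intro h
      rw [h, zero_div] at p1
      exact lt_irrefl _ p1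
    have hBy : (b * c).eval y ≠ 0 := by
      intro h
      rw [h, zero_div] at p2
      exact lt_irrefl _ p2
    have q1 := CON_pos p1
    have q2 := CON_pos p2
    show Hs ℝ _ _ ↔ Hs ℝ _ _
    rw [hHS.2.2.1 _ _ (Rat.cast_ne_zero.2 hAy) (Rat.cast_ne_zero.2 hBy),
      hHS.2.2.1 _ _ (Rat.cast_ne_zero.2 hA) (Rat.cast_ne_zero.2 hB)]
    rw [Rat.cast_pos, Rat.cast_pos, Rat.cast_pos, Rat.cast_pos, q1, q2]
  · intro p hp x hx
    haveI : Fact p.Prime := ⟨hp⟩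
    have hx' : ¬ (a * b * c).eval x = 0 := hx
    rw [eval_mul, eval_mul] at hx'
    have hax : a.eval x ≠ 0 := fun h => hx' (by rw [h]; ring)
    have hbx : b.eval x ≠ 0 := fun h => hx' (by rw [h]; ring)
    have hcx : c.eval x ≠ 0 := fun h => hx' (by rw [h]; ring)
    have hA : (a * c).eval x ≠ 0 := by rw [eval_mul]; exact mul_ne_zero hax hcx
    have hB : (b * c).eval x ≠ 0 := by rw [eval_mul]; exact mul_ne_zero hbx hcx
    obtain ⟨ε1, hε1, H1⟩ := (hLC (a * c) x hA).2 p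
    obtain ⟨ε2, hε2, H2⟩ := (hLC (b * c) x hB).2 p
    refine ⟨min ε1 ε2, lt_min hε1 hε2, ?_⟩
    intro y hy
    obtain ⟨p1, p1'⟩ := H1 y (lt_of_lt_of_le hy (min_le_left _ _))
    obtain ⟨p2, p2'⟩ := H2 y (lt_of_lt_of_le hy (min_le_right _ _))
    obtain ⟨s, hs, es⟩ := CON_sq p1 hA p1'
    obtain ⟨t, ht, et⟩ := CON_sq p2 hB p2'
    have key : Hs ℚ_[p] (((a * c).eval y : ℚ) : ℚ_[p]) (((b * c).eval y : ℚ) : ℚ_[p]) ↔
        Hs ℚ_[p] (((a * c).eval x : ℚ) : ℚ_[p]) (((b * c).eval x : ℚ) : ℚ_[p]) := by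
      rw [es, et]
      exact hHS.1 ℚ_[p] _ _ s t hs ht
    constructor
    · intro h hF
      exact key.1 (h hF)
    · intro h hF
      exact key.2 (h hF)
  · intro p hp hpD hDp n m hm
    haveI : Fact p.Prime := ⟨hp⟩
    obtain ⟨K, hK⟩ := hinf p hpD hDp n m hm
    refine ⟨K, fun k hk hF => ?_⟩
    obtain ⟨s, hs⟩ := hK k hk
    refine ⟨1, 0, s, Or.inl one_ne_zero, ?_⟩
    rw [hs]
    ring

end Pool.Agent.H527R9.CC
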