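import Pool.Agent.H527R9.CC.Defs2

/-!
# Degenerate conic conditions are nice
-/

set_option autoImplicit false

namespace Pool.Agent.H527R9.CC

open Polynomial

theorem DEG_univ : Nice (Set.univ : Set ℚ) := by
  refine ⟨Set.univ, fun _ => Set.univ, ∅, 1, Set.finite_empty, one_ne_zero, ?_, ?_, ?_, ?_⟩
  · intro x _
    simp
  · intro x _
    exact ⟨1, one_pos, fun y _ => by simp⟩
  · intro p _ x _
    exact ⟨1, one_pos, fun y _ => by simp⟩
  · intro p _ _ _ n m _
    exact ⟨0, fun k _ => Set.mem_univ _⟩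

theorem DEG_empty : Nice (∅ : Set ℚ) := by
  refine ⟨∅, fun _ => Set.univ, ∅, 1, Set.finite_empty, one_ne_zero, ?_, ?_, ?_, ?_⟩
  · intro x _
    simp
  · intro x _
    exact ⟨1, one_pos, fun y _ => by simp⟩
  · intro p _ x _
    exact ⟨1, one_pos, fun y _ => by simp⟩
  · intro p _ _ _ n m _
    exact ⟨0, fun k _ => Set.mem_univ _⟩

theorem DEG_left (hNSQ : S_NSQ) (hNCG : S_NCG) (b c : ℚ[X]) (hc : c ≠ 0) :
    Nice (Conic 0 b c) := by
  by_cases hb : b = 0
  · subst hb
    refine hNCG ∅ _ ?_ DEG_empty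
    refine (Polynomial.finite_setOfPred_isRoot hc).subset fun x hx => ?_
    simp only [Conic, Set.mem_ofPred_eq, eval_zero, zero_mul, add_zero, Set.mem_empty_iff_false,
      false_iff, not_not] at hx
    obtain ⟨y, z, h⟩ := hx
    exact h.symm
  · have hbc : b * c ≠ 0 := mul_ne_zero hb hc
    refine hNCG {x | IsSquare ((b * c).eval x)} _ ?_ (hNSQ _ hbc)
    refine (Polynomial.finite_setOfPred_isRoot hbc).subset fun x hx => ?_
    by_contra hr
    apply hx
    have hr' : b.eval x ≠ 0 := by
      intro h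
      apply hr
      show (b * c).eval x = 0
      rw [eval_mul, h, zero_mul]
    simp only [Conic, Set.mem_ofPred_eq, eval_zero, zero_mul, zero_add, eval_mul]
    constructor
    · rintro ⟨s, hs⟩
      refine ⟨0, s / b.eval x, ?_⟩
      rw [div_pow, ← mul_div_assoc, div_eq_iff (pow_ne_zero 2 hr')]
      linear_combination (-(b.eval x)) * hs
    · rintro ⟨y, z, h⟩
      refine ⟨b.eval x * z, ?_⟩
      rw [← h]
      ring

theorem t_DEG (hNSQ : S_NSQ) (hNCG : S_NCG) : S_DEG := by
  intro a b c h
  by_cases hc : c = 0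
  · subst hc
    have : Conic a b 0 = Set.univ := by
      ext x
      simp only [Conic, Set.mem_ofPred_eq, eval_zero, Set.mem_univ, iff_true]
      exact ⟨0, 0, by ring⟩
    rw [this]
    exact DEG_univ
  · rcases h with rfl | rfl | rfl
    · exact DEG_left hNSQ hNCG b c hc
    · have : Conic a 0 c = Conic 0 a c := by
        ext x
        simp only [Conic, Set.mem_ofPred_eq, eval_zero, zero_mul, zero_add, add_zero]
        constructor
        · rintro ⟨y, z, h⟩
          exact ⟨z, y, h⟩
        · rintro ⟨y, z, h⟩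
          exact ⟨z, y, h⟩
      rw [this]
      exact DEG_left hNSQ hNCG a c hc
    · exact absurd rfl hc

end Pool.Agent.H527R9.CC
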