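import Pool.Agent.H527R9.CC.Defs2

set_option autoImplicit false

namespace Pool.Agent.H527R9.CC

open Polynomial

theorem HM_swap (K : Type) [Field K] (a b : K) (h : Hs K a b) : Hs K b a := by
  obtain ⟨x, y, z, h1, h2⟩ := h
  refine ⟨y, x, z, ?_, ?_⟩
  · rcases h1 with h | h | h
    · exact Or.inr (Or.inl h)
    · exact Or.inl h
    · exact Or.inr (Or.inr h)
  · rw [h2]
    ring

/-- local solvability -/
def HM_Loc (a b : ℤ) : Prop := Hs ℝ (a : ℝ) (b : ℝ) ∧
  ∀ (p : ℕ) [Fact p.Prime], Hs ℚ_[p] (a : ℚ_[p]) (b : ℚ_[p])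

theorem HM_Loc_swap (a b : ℤ) (h : HM_Loc a b) : HM_Loc b a :=
  ⟨HM_swap _ _ _ h.1, fun p _ => HM_swap _ _ _ (h.2 p)⟩

/-- removing a square factor -/
theorem HM_sq (hHS : S_HS) (K : Type) [Field K] [CharZero K] (a b1 d : ℤ) (hd : d ≠ 0) :
    Hs K (a : K) ((d * d * b1 : ℤ) : K) ↔ Hs K (a : K) (b1 : K) := by
  have hd' : (d : K) ≠ 0 := by exact_mod_cast hd
  have h := hHS.1 K (a : K) (b1 : K) 1 (d : K) one_ne_zero hd'
  have e1 : (a : K) * 1 ^ 2 = a := by ring
  have e2 : (b1 : K) * (d : K) ^ 2 = ((d * d * b1 : ℤ) : K) := by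
    push_cast
    ring
  rw [e1, e2] at h
  exact h

/-- the descent step -/
theorem HM_desc (hB : S_HMB) (K : Type) [Field K] [CharZero K] (a b b' t : ℤ) (hb : b ≠ 0)
    (hb' : b' ≠ 0) (h : t ^ 2 - a = b * b') (hs : Hs K (a : K) (b : K)) : Hs K (a : K) (b' : K) := by
  refine hB K (a : K) (b : K) (b' : K) (t : K) (by exact_mod_cast hb) (by exact_mod_cast hb') ?_ hs
  exact_mod_cast h

theorem HM_core (hA : S_HMA) (hB : S_HMB) (hHS : S_HS) : ∀ n : ℕ, ∀ a b : ℤ, a ≠ 0 → b ≠ 0 →
    a.natAbs + b.natAbs ≤ n → HM_Loc a b → Hs ℚ (a : ℚ) (b : ℚ) := by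
  intro n
  induction n with
  | zero =>
    intro a b ha hb h
    omega
  | succ n ih =>
    have key : ∀ a b : ℤ, a ≠ 0 → b ≠ 0 → a.natAbs ≤ b.natAbs → a.natAbs + b.natAbs ≤ n + 1 →
        HM_Loc a b → Hs ℚ (a : ℚ) (b : ℚ) := by
      intro a b ha hb hab hn hL
      by_cases hsq : Squarefree b
      · rcases lt_or_ge b.natAbs 2 with h1 | h2
        · have ha1 : a = 1 ∨ a = -1 := by omega
          have hb1 : b = 1 ∨ b = -1 := by omega
          have hpos := (hHS.2.2.1 (a : ℝ) (b : ℝ) (by exact_mod_cast ha) (by exact_mod_cast hb)).1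
            hL.1
          rcases ha1 with rfl | rfl
          · exact ⟨1, 0, 1, Or.inl one_ne_zero, by push_cast; ring⟩
          · rcases hb1 with rfl | rfl
            · exact ⟨0, 1, 1, Or.inr (Or.inl one_ne_zero), by push_cast; ring⟩
            · exfalso
              rcases hpos with h | h <;> norm_num at h
        · obtain ⟨t, ⟨b', hb'⟩, ht⟩ := hA a b hsq (fun p _ => hL.2 p)
          rcases eq_or_ne b' 0 with h0 | h0
          · rw [h0, mul_zero] at hb'
            have : a = t ^ 2 := by linarith
            refine ⟨1, 0, (t : ℚ), Or.inl one_ne_zero, ?_⟩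
            rw [this]
            push_cast
            ring
          · -- the size of `b'`
            have habs : (b.natAbs : ℤ) = |b| := Int.natCast_natAbs b
            have habs' : (b'.natAbs : ℤ) = |b'| := Int.natCast_natAbs b'
            have habsa : (a.natAbs : ℤ) = |a| := Int.natCast_natAbs a
            have hab2 : |a| ≤ |b| := by
              rw [← habs, ← habsa]
              exact_mod_cast hab
            have hb2 : 2 ≤ |b| := by
              rw [← habs]
              exact_mod_cast h2
            have h4 : |b| * |b'| ≤ t ^ 2 + |a| := by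
              rw [← abs_mul, ← hb']
              have h5 := abs_sub (t ^ 2) a
              rw [abs_of_nonneg (sq_nonneg t)] at h5
              exact h5
            have h6 : 4 * t ^ 2 ≤ |b| ^ 2 := by
              have h7 : (2 * |t|) ^ 2 ≤ |b| ^ 2 := pow_le_pow_left₀ (by positivity) ht 2
              have h8 : (2 * |t|) ^ 2 = 4 * t ^ 2 := by
                rw [mul_pow, sq_abs]
                norm_num
              rw [h8] at h7
              exact h7
            have h9 : 4 * (|b| * |b'|) ≤ |b| * (|b| + 4) := by nlinarith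
            have h10 : 4 * |b'| ≤ |b| + 4 := by
              by_contra hcon
              push Not at hcon
              have : |b| * (|b| + 4) < |b| * (4 * |b'|) :=
                mul_lt_mul_of_pos_left hcon (by linarith)
              nlinarith
            have h11 : b'.natAbs < b.natAbs := by
              have : (b'.natAbs : ℤ) < b.natAbs := by
                rw [habs, habs']
                linarith
              exact_mod_cast this
            have hL' : HM_Loc a b' := ⟨HM_desc hB ℝ a b b' t hb h0 hb' hL.1,
              fun p _ => HM_desc hB ℚ_[p] a b b' t hb h0 hb' (hL.2 p)⟩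
            have h12 := ih a b' ha h0 (by omega) hL'
            exact HM_desc hB ℚ a b' b t h0 hb (by rw [hb']; ring) h12
      · rw [Squarefree] at hsq
        push Not at hsq
        obtain ⟨d, ⟨b1, hb1⟩, hdu⟩ := hsq
        have hd0 : d ≠ 0 := by
          rintro rfl
          apply hb
          rw [hb1]
          ring
        have hb10 : b1 ≠ 0 := by
          rintro rfl
          apply hb
          rw [hb1]
          ring
        have hd2 : 2 ≤ d.natAbs := by
          by_contra hcon
          apply hdu
          rw [Int.isUnit_iff_natAbs_eq]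
          omega
        have hlt : b1.natAbs < b.natAbs := by
          rw [hb1, Int.natAbs_mul, Int.natAbs_mul]
          have h1 : 0 < b1.natAbs := by omega
          have h2 : 2 * 2 ≤ d.natAbs * d.natAbs := Nat.mul_le_mul hd2 hd2
          calc b1.natAbs = 1 * b1.natAbs := (one_mul _).symm
            _ < (d.natAbs * d.natAbs) * b1.natAbs := Nat.mul_lt_mul_of_pos_right (by omega) h1
        have hL' : HM_Loc a b1 := by
          refine ⟨(HM_sq hHS ℝ a b1 d hd0).1 ?_, fun p _ => (HM_sq hHS ℚ_[p] a b1 d hd0).1 ?_⟩
          · rw [← hb1]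
            exact hL.1
          · rw [← hb1]
            exact hL.2 p
        have h12 := ih a b1 ha hb10 (by omega) hL'
        rw [hb1]
        exact (HM_sq hHS ℚ a b1 d hd0).2 h12
    intro a b ha hb hn hL
    rcases le_total a.natAbs b.natAbs with h | h
    · exact key a b ha hb h hn hL
    · exact HM_swap _ _ _ (key b a hb ha h (by omega) (HM_Loc_swap a b hL))

theorem t_HM (hA : S_HMA) (hB : S_HMB) (hHS : S_HS) : S_HM := by
  intro a b ha hb hR hp
  exact HM_core hA hB hHS (a.natAbs + b.natAbs) a b ha hb le_rfl ⟨hR, fun p _ => hp p⟩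

end Pool.Agent.H527R9.CC
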