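import Pool.Agent.H527R9.CC.Defs2

set_option autoImplicit false

namespace Pool.Agent.H527R9.CC

open Polynomial

/-- a natural number with even valuations is a square -/
theorem HM2_nat (N : ℕ) (hN : N ≠ 0) (h : ∀ p : ℕ, p.Prime → Even (N.factorization p)) :
    IsSquare N := by
  obtain ⟨a, b, hab, ha⟩ := Nat.sq_mul_squarefree N
  by_cases h1 : a = 1
  · exact ⟨b, by rw [← hab, h1, mul_one, sq]⟩
  · exfalso
    obtain ⟨p, hp, hpa⟩ := Nat.exists_prime_and_dvd h1
    have ha0 : a ≠ 0 := by rintro rfl; simp at hab; exact hN hab.symm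
    have hb0 : b ≠ 0 := by rintro rfl; simp at hab; exact hN hab.symm
    have h2 : a.factorization p = 1 := by
      have h3 := ha.natFactorization_le_one p
      have h4 : 0 < a.factorization p := hp.factorization_pos_of_dvd ha0 hpa
      omega
    have h5 := h p hp
    rw [← hab, Nat.factorization_mul (pow_ne_zero 2 hb0) ha0, Nat.factorization_pow] at h5
    simp only [Finsupp.coe_add, Finsupp.coe_smul, Pi.add_apply, Pi.smul_apply, smul_eq_mul] at h5
    rw [h2] at h5
    obtain ⟨k, hk⟩ := h5
    omega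

theorem t_HM2 : S_HM2 := by
  intro a ha hpos h
  have hnum : a.num ≠ 0 := Rat.num_ne_zero.mpr ha
  have hnum' : a.num.natAbs ≠ 0 := Int.natAbs_ne_zero.mpr hnum
  have hden : a.den ≠ 0 := a.den_ne_zero
  have key : IsSquare (a.num.natAbs * a.den) := by
    apply HM2_nat _ (mul_ne_zero hnum' hden)
    intro p hp
    haveI : Fact p.Prime := ⟨hp⟩
    obtain ⟨r, hr⟩ := h p
    have hr0 : r ≠ 0 := by
      rintro rfl
      rw [mul_zero] at hr
      exact ha (by exact_mod_cast hr)
    have h1 : padicValRat p a = r.valuation + r.valuation := by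
      rw [← Padic.valuation_ratCast, hr, Padic.valuation_mul hr0 hr0]
    have h2 : padicValRat p a = (padicValNat p a.num.natAbs : ℤ) - padicValNat p a.den := rfl
    rw [Nat.factorization_mul hnum' hden, Finsupp.add_apply, Nat.factorization_def _ hp,
      Nat.factorization_def _ hp]
    rw [← Int.even_coe_nat]
    refine ⟨r.valuation + (padicValNat p a.den : ℤ), ?_⟩
    rw [Nat.cast_add]
    generalize (padicValNat p a.num.natAbs : ℤ) = u at h2 ⊢
    generalize (padicValNat p a.den : ℤ) = w at h2 ⊢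
    linarith
  obtain ⟨k, hk⟩ := key
  refine ⟨(k : ℚ) / a.den, ?_⟩
  have hdq : (a.den : ℚ) ≠ 0 := by exact_mod_cast hden
  have hn : (a.num : ℚ) = (a.num.natAbs : ℚ) := by
    have h0 : 0 < a.num := Rat.num_pos.mpr hpos
    have h1 : (a.num.natAbs : ℤ) = a.num := Int.natAbs_of_nonneg h0.le
    calc (a.num : ℚ) = ((a.num.natAbs : ℤ) : ℚ) := by rw [h1]
      _ = (a.num.natAbs : ℚ) := Int.cast_natCast _
  have hk' : (a.num.natAbs : ℚ) * a.den = k * k := by exact_mod_cast hk
  have e : a = a.num / a.den := (Rat.num_div_den a).symm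
  rw [div_mul_div_comm, ← hk', mul_div_mul_right _ _ hdq, ← hn]
  exact e

end Pool.Agent.H527R9.CC
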