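import Pool.Agent.H527R9.CC.Defs2

/-!
# Task HMA: local solvability makes `a` a square modulo `b`
-/

set_option autoImplicit false

namespace Pool.Agent.H527R9.CC

open Polynomial

/-- an integral solution of which one coordinate is one -/
lemma HMA_norm (p : ℕ) [Fact p.Prime] (a b : ℤ) (h : Hs ℚ_[p] a b) :
    ∃ X Y Z : ℤ_[p], (X = 1 ∨ Y = 1 ∨ Z = 1) ∧ Z ^ 2 = (a : ℤ_[p]) * X ^ 2 + (b : ℤ_[p]) * Y ^ 2 := by
  obtain ⟨x, y, z, hne, heq⟩ := h
  have hw : ∃ w : ℚ_[p], w ≠ 0 ∧ ‖x‖ ≤ ‖w‖ ∧ ‖y‖ ≤ ‖w‖ ∧ ‖z‖ ≤ ‖w‖ ∧ (x = w ∨ y = w ∨ z = w) := by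
    have key : ∀ w : ℚ_[p], ‖x‖ ≤ ‖w‖ → ‖y‖ ≤ ‖w‖ → ‖z‖ ≤ ‖w‖ → w ≠ 0 := by
      intro w h1 h2 h3 h0
      subst h0
      simp only [norm_zero, norm_le_zero_iff] at h1 h2 h3
      rcases hne with h | h | h
      · exact h h1
      · exact h h2
      · exact h h3
    rcases le_total ‖x‖ ‖y‖ with h1 | h1
    · rcases le_total ‖y‖ ‖z‖ with h2 | h2
      · exact ⟨z, key z (h1.trans h2) h2 le_rfl, h1.trans h2, h2, le_rfl, Or.inr (Or.inr rfl)⟩
      · exact ⟨y, key y h1 le_rfl h2, h1, le_rfl, h2, Or.inr (Or.inl rfl)⟩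
    · rcases le_total ‖x‖ ‖z‖ with h2 | h2
      · exact ⟨z, key z h2 (h1.trans h2) le_rfl, h2, h1.trans h2, le_rfl, Or.inr (Or.inr rfl)⟩
      · exact ⟨x, key x le_rfl h1 h2, le_rfl, h1, h2, Or.inl rfl⟩
  obtain ⟨w, hw0, hx, hy, hz, hor⟩ := hw
  have hdiv : ∀ u : ℚ_[p], ‖u‖ ≤ ‖w‖ → ‖u / w‖ ≤ 1 := by
    intro u hu
    rw [norm_div]
    exact div_le_one_of_le₀ hu (norm_nonneg _)
  refine ⟨⟨x / w, hdiv x hx⟩, ⟨y / w, hdiv y hy⟩, ⟨z / w, hdiv z hz⟩, ?_, ?_⟩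
  · rcases hor with h | h | h
    · left
      apply Subtype.ext
      simp [h, div_self hw0]
    · right; left
      apply Subtype.ext
      simp [h, div_self hw0]
    · right; right
      apply Subtype.ext
      simp [h, div_self hw0]
  · apply Subtype.ext
    push_cast
    rw [div_pow, div_pow, div_pow, heq]
    field_simp

/-- the local statement -/
lemma HMA_loc (p : ℕ) [hp : Fact p.Prime] (a b : ℤ) (hb : Squarefree b) (hpb : (p : ℤ) ∣ b)
    (h : Hs ℚ_[p] a b) : ∃ t : ℤ, (p : ℤ) ∣ t ^ 2 - a := by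
  by_cases hpa : (p : ℤ) ∣ a
  · exact ⟨0, by simpa using hpa⟩
  obtain ⟨X, Y, Z, hone, heq⟩ := HMA_norm p a b h
  obtain ⟨b₁, hb₁⟩ := hpb
  have hpp : Prime (p : ℤ_[p]) := PadicInt.prime_p
  have hcast : ∀ n : ℤ, (p : ℤ_[p]) ∣ (n : ℤ_[p]) → (p : ℤ) ∣ n := by
    intro n hn
    have h1 := map_dvd (PadicInt.toZMod (p := p)) hn
    rw [map_natCast, map_intCast] at h1
    rw [CharP.cast_eq_zero] at h1
    rw [zero_dvd_iff] at h1
    exact (ZMod.intCast_zmod_eq_zero_iff_dvd n p).1 h1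
  have hb₁p : ¬ (p : ℤ) ∣ b₁ := by
    intro hd
    have h1 : (p : ℤ) * p ∣ b := by
      rw [hb₁]
      exact mul_dvd_mul_left _ hd
    have h2 := hb _ h1
    have h3 : (p : ℤ).natAbs = 1 := Int.isUnit_iff_natAbs_eq.1 h2
    simp at h3
    exact hp.1.one_lt.ne' h3
  have hbZ : (b : ℤ_[p]) = (p : ℤ_[p]) * (b₁ : ℤ_[p]) := by
    rw [hb₁]; push_cast; ring
  have hX : ¬ (p : ℤ_[p]) ∣ X := by
    intro hX
    have hZ2 : (p : ℤ_[p]) ∣ Z ^ 2 := by
      rw [heq, hbZ]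
      refine dvd_add ?_ ?_
      · exact Dvd.dvd.mul_left (dvd_pow hX two_ne_zero) _
      · rw [mul_assoc]; exact dvd_mul_right _ _
    have hZ : (p : ℤ_[p]) ∣ Z := hpp.dvd_of_dvd_pow hZ2
    obtain ⟨X', rfl⟩ := hX
    obtain ⟨Z', rfl⟩ := hZ
    have h1 : (p : ℤ_[p]) * ((b₁ : ℤ_[p]) * Y ^ 2) =
        (p : ℤ_[p]) * ((p : ℤ_[p]) * (Z' ^ 2 - (a : ℤ_[p]) * X' ^ 2)) := by
      rw [hbZ] at heq
      linear_combination (-1 : ℤ_[p]) * heq
    have h2 := mul_left_cancel₀ hpp.ne_zero h1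
    have h3 : (p : ℤ_[p]) ∣ (b₁ : ℤ_[p]) * Y ^ 2 := by rw [h2]; exact dvd_mul_right _ _
    have hY : (p : ℤ_[p]) ∣ Y := by
      rcases hpp.dvd_or_dvd h3 with h4 | h4
      · exact absurd (hcast _ h4) hb₁p
      · exact hpp.dvd_of_dvd_pow h4
    rcases hone with h4 | h4 | h4
    · exact hpp.not_isUnit (IsUnit.of_mul_eq_one _ h4)
    · rw [h4] at hY; exact hpp.not_isUnit (isUnit_of_dvd_one hY)
    · exact hpp.not_isUnit (IsUnit.of_mul_eq_one _ h4)
  have hX0 : PadicInt.toZMod X ≠ 0 := by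
    intro h0
    apply hX
    have h1 : X ∈ RingHom.ker (PadicInt.toZMod (p := p)) := h0
    rw [PadicInt.ker_toZMod, PadicInt.maximalIdeal_eq_span_p, Ideal.mem_span_singleton] at h1
    exact h1
  have hφ : (PadicInt.toZMod Z) ^ 2 = (a : ZMod p) * (PadicInt.toZMod X) ^ 2 := by
    have h1 := congrArg (PadicInt.toZMod (p := p)) heq
    rw [map_add, map_mul, map_mul, map_pow, map_pow, map_pow, map_intCast, map_intCast] at h1
    have h2 : ((b : ℤ) : ZMod p) = 0 := by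
      rw [hb₁]; push_cast; rw [CharP.cast_eq_zero, zero_mul]
    rw [h2, zero_mul, add_zero] at h1
    exact h1
  obtain ⟨t, ht⟩ := ZMod.intCast_surjective (PadicInt.toZMod Z / PadicInt.toZMod X)
  refine ⟨t, ?_⟩
  rw [← ZMod.intCast_zmod_eq_zero_iff_dvd]
  push_cast
  rw [ht, div_pow, hφ]
  field_simp
  ring

/-- Chinese remainders -/
lemma HMA_crt (a : ℤ) (n : ℕ) : Squarefree n →
    (∀ p : ℕ, p.Prime → p ∣ n → ∃ t : ℤ, (p : ℤ) ∣ t ^ 2 - a) → ∃ t : ℤ, (n : ℤ) ∣ t ^ 2 - a := by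
  induction n using induction_on_primes with
  | zero => intro h; exact absurd h not_squarefree_zero
  | one => intro _ _; exact ⟨0, by simp⟩
  | prime_mul p m hp ih =>
    intro hsq h
    have hcop : Nat.Coprime p m := Nat.coprime_of_squarefree_mul hsq
    obtain ⟨s, hs⟩ := ih (hsq.squarefree_of_dvd (dvd_mul_left m p))
      (fun q hq hqm => h q hq (dvd_mul_of_dvd_right hqm p))
    obtain ⟨r, hr⟩ := h p hp (dvd_mul_right p m)
    have hcopZ : IsCoprime (p : ℤ) (m : ℤ) := Nat.isCoprime_iff_coprime.2 hcop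
    obtain ⟨u, v, huv⟩ := hcopZ
    refine ⟨s * (u * p) + r * (v * m), ?_⟩
    rw [Nat.cast_mul]
    apply IsCoprime.mul_dvd ⟨u, v, huv⟩
    · have e : (s * (u * p) + r * (v * m)) ^ 2 - a = (r ^ 2 - a) +
          p * (u * (s - r)) * ((s * (u * p) + r * (v * m)) + r) := by
        have : v * (m : ℤ) = 1 - u * p := by linarith
        rw [this]; ring
      rw [e]
      exact dvd_add hr (Dvd.intro _ (by ring : (p : ℤ) * (u * (s - r) *
        ((s * (u * p) + r * (v * m)) + r)) = _))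
    · have e : (s * (u * p) + r * (v * m)) ^ 2 - a = (s ^ 2 - a) +
          m * (v * (r - s)) * ((s * (u * p) + r * (v * m)) + s) := by
        have : u * (p : ℤ) = 1 - v * m := by linarith
        rw [this]; ring
      rw [e]
      exact dvd_add hs (Dvd.intro _ (by ring : (m : ℤ) * (v * (r - s) *
        ((s * (u * p) + r * (v * m)) + s)) = _))

theorem t_HMA : S_HMA := by
  intro a b hb hloc
  have hb0 : b ≠ 0 := hb.ne_zero
  have hsq : Squarefree b.natAbs := Int.squarefree_natAbs.2 hb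
  obtain ⟨s, hs⟩ := HMA_crt a b.natAbs hsq (by
    intro p hp hpb
    haveI : Fact p.Prime := ⟨hp⟩
    exact HMA_loc p a b hb (Int.natCast_dvd.2 hpb) (hloc p))
  have habs : ((b.natAbs : ℕ) : ℤ) = |b| := Int.natCast_natAbs b
  rw [habs] at hs
  have hpos : 0 < |b| := abs_pos.2 hb0
  have hr0 := Int.emod_nonneg s hpos.ne'
  have hr1 := Int.emod_lt_of_pos s hpos
  have hdm := Int.emod_add_mul_ediv s |b|
  by_cases hc : 2 * (s % |b|) ≤ |b|
  · refine ⟨s % |b|, ?_, ?_⟩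
    · rw [← abs_dvd]
      have e : (s % |b|) ^ 2 - a = (s ^ 2 - a) - |b| * ((s / |b|) * (s + s % |b|)) := by
        have : s % |b| = s - |b| * (s / |b|) := by linarith
        rw [this]; ring
      rw [e]
      exact dvd_sub hs (dvd_mul_right _ _)
    · rw [abs_of_nonneg hr0]; exact hc
  · refine ⟨s % |b| - |b|, ?_, ?_⟩
    · rw [← abs_dvd]
      have e : (s % |b| - |b|) ^ 2 - a = (s ^ 2 - a) -
          |b| * ((s / |b| + 1) * (s + (s % |b| - |b|))) := by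
        have : s % |b| = s - |b| * (s / |b|) := by linarith
        rw [this]; ring
      rw [e]
      exact dvd_sub hs (dvd_mul_right _ _)
    · rw [abs_of_nonpos (by linarith)]; linarith

end Pool.Agent.H527R9.CC
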