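import Pool.Agent.H527R9.CC.Defs2

set_option autoImplicit false

/-! Task HMB (helper722): the descent identity. -/

namespace Pool.Agent.H527R9.CC

open Polynomial

theorem t_HMB : S_HMB := by
  intro K _ a b b' t hb _ ht hs
  obtain ⟨x, y, z, hne, h⟩ := hs
  by_cases hy : y = 0
  · subst hy
    have hx : x ≠ 0 := by
      intro hx
      subst hx
      have hz : z = 0 := by
        have : z ^ 2 = 0 := by rw [h]; ring
        exact pow_eq_zero_iff (two_ne_zero) |>.mp this
      rcases hne with h1 | h1 | h1
      · exact h1 rfl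
      · exact h1 rfl
      · exact h1 hz
    refine ⟨1, 0, z / x, Or.inl one_ne_zero, ?_⟩
    rw [div_pow, h]
    field_simp
    ring
  · refine ⟨z + t * x, b * y, z * t + a * x, Or.inr (Or.inl (mul_ne_zero hb hy)), ?_⟩
    linear_combination (t ^ 2 - a) * h + b * y ^ 2 * ht

end Pool.Agent.H527R9.CC
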