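import Pool.Agent.H527R9.CC.Defs3

namespace Pool.Agent.H527R9.CC

open Polynomial

theorem HMK_nat (n k : ℕ) (hn : n ≠ 0) (h : ∀ p, p.Prime → k ∣ n.factorization p) :
    ∃ m : ℕ, m ^ k = n := by
  refine ⟨n.factorization.prod fun p e => p ^ (e / k), ?_⟩
  conv_rhs => rw [← Nat.prod_factorization_pow_eq_self hn]
  unfold Finsupp.prod
  rw [← Finset.prod_pow]
  apply Finset.prod_congr rfl
  intro p hp
  have hpp : p.Prime := Nat.prime_of_mem_primeFactors (by simpa using hp)
  rw [← pow_mul, Nat.div_mul_cancel (h p hpp)]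

theorem t_HMK : S_HMK := by
  intro a k ha hk hreal hp
  have hval : ∀ p : ℕ, p.Prime → (k : ℤ) ∣ padicValRat p a := by
    intro p hpp
    have : Fact p.Prime := ⟨hpp⟩
    obtain ⟨s, hs⟩ := hp p
    have h1 := congrArg Padic.valuation hs
    rw [Padic.valuation_pow, Padic.valuation_ratCast] at h1
    rw [← h1]
    exact dvd_mul_right _ _
  have hcop := a.reduced
  have hnum : ∀ p, p.Prime → k ∣ a.num.natAbs.factorization p := by
    intro p hpp
    rw [Nat.factorization_def _ hpp]
    by_cases hd : p ∣ a.num.natAbs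
    · have hd' : ¬ p ∣ a.den := fun h => hpp.one_lt.ne' (Nat.eq_one_of_dvd_coprimes hcop hd h)
      have h0 : padicValNat p a.den = 0 := padicValNat.eq_zero_of_not_dvd hd'
      have h1 := hval p hpp
      unfold padicValRat padicValInt at h1
      rw [h0] at h1
      simp only [Nat.cast_zero, sub_zero] at h1
      exact_mod_cast h1
    · rw [padicValNat.eq_zero_of_not_dvd hd]
      exact dvd_zero _
  have hden : ∀ p, p.Prime → k ∣ a.den.factorization p := by
    intro p hpp
    rw [Nat.factorization_def _ hpp]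
    by_cases hd : p ∣ a.den
    · have hd' : ¬ p ∣ a.num.natAbs := fun h =>
        hpp.one_lt.ne' (Nat.eq_one_of_dvd_coprimes hcop h hd)
      have h0 : padicValNat p a.num.natAbs = 0 := padicValNat.eq_zero_of_not_dvd hd'
      have h1 := hval p hpp
      unfold padicValRat padicValInt at h1
      rw [h0] at h1
      simp only [Nat.cast_zero, zero_sub, dvd_neg] at h1
      exact_mod_cast h1
    · rw [padicValNat.eq_zero_of_not_dvd hd]
      exact dvd_zero _
  obtain ⟨m1, hm1⟩ := HMK_nat a.num.natAbs k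
    (Int.natAbs_ne_zero.2 (Rat.num_ne_zero.2 ha)) hnum
  obtain ⟨m2, hm2⟩ := HMK_nat a.den k a.den_nz hden
  have hq : (a.num : ℚ) / (a.den : ℚ) = a := Rat.num_div_den a
  have hm2' : (a.den : ℚ) = (m2 : ℚ) ^ k := by rw [← hm2]; push_cast; rfl
  rcases lt_or_gt_of_ne ha with hneg | hpos
  · have hodd : Odd k := by
      by_contra hcon
      rw [Nat.not_odd_iff_even] at hcon
      obtain ⟨s, hs⟩ := hreal
      have h1 : 0 ≤ s ^ k := hcon.pow_nonneg s
      rw [hs] at h1
      have h2 : (0 : ℚ) ≤ a := by exact_mod_cast h1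
      linarith
    refine ⟨-((m1 : ℚ) / m2), ?_⟩
    rw [hodd.neg_pow, div_pow, ← hm2']
    have hn : (a.num : ℚ) = -((m1 : ℚ) ^ k) := by
      have h1 : a.num < 0 := Rat.num_neg.2 hneg
      have h2 : (a.num.natAbs : ℤ) = -a.num := Int.ofNat_natAbs_of_nonpos h1.le
      rw [← hm1] at h2
      have h3 : ((m1 ^ k : ℕ) : ℚ) = -(a.num : ℚ) := by exact_mod_cast h2
      push_cast at h3
      linarith
    have hn' : (m1 : ℚ) ^ k = -(a.num : ℚ) := by linarith
    rw [hn', neg_div, neg_neg]
    exact hq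
  · refine ⟨(m1 : ℚ) / m2, ?_⟩
    rw [div_pow, ← hm2']
    have hn : (a.num : ℚ) = (m1 : ℚ) ^ k := by
      have h1 : 0 < a.num := Rat.num_pos.2 hpos
      have h2 : (a.num.natAbs : ℤ) = a.num := Int.natAbs_of_nonneg h1.le
      rw [← hm1] at h2
      have h3 : ((m1 ^ k : ℕ) : ℚ) = (a.num : ℚ) := by exact_mod_cast h2
      push_cast at h3
      linarith
    rw [← hn]
    exact hq

end Pool.Agent.H527R9.CC
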