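import Pool.Agent.H527R9.CC.Defs2

/-! Task HS: elementary algebra of conics. -/

set_option autoImplicit false

namespace Pool.Agent.H527R9.CC

open Polynomial

theorem HS_1 (K : Type) [Field K] (a b s t : K) (hs : s ≠ 0) (ht : t ≠ 0) :
    Hs K (a * s ^ 2) (b * t ^ 2) ↔ Hs K a b := by
  constructor
  · rintro ⟨x, y, z, h1, h2⟩
    refine ⟨s * x, t * y, z, ?_, ?_⟩
    · rcases h1 with h | h | h
      · exact Or.inl (mul_ne_zero hs h)
      · exact Or.inr (Or.inl (mul_ne_zero ht h))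
      · exact Or.inr (Or.inr h)
    · rw [h2]
      ring
  · rintro ⟨x, y, z, h1, h2⟩
    refine ⟨x / s, y / t, z, ?_, ?_⟩
    · rcases h1 with h | h | h
      · exact Or.inl (div_ne_zero h hs)
      · exact Or.inr (Or.inl (div_ne_zero h ht))
      · exact Or.inr (Or.inr h)
    · rw [h2]
      field_simp

theorem HS_2 (K : Type) [Field K] [CharZero K] (a b c : K) (ha : a ≠ 0) (hb : b ≠ 0)
    (hc : c ≠ 0) : (∃ y z : K, a * y ^ 2 + b * z ^ 2 = c) ↔ Hs K (a * c) (b * c) := by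
  constructor
  · rintro ⟨y, z, h⟩
    refine ⟨y, z, c, Or.inr (Or.inr hc), ?_⟩
    have h2 : a * c * y ^ 2 + b * c * z ^ 2 = c * (a * y ^ 2 + b * z ^ 2) := by ring
    rw [h2, h]
    ring
  · rintro ⟨X, Y, Z, h1, h2⟩
    by_cases hZ : Z = 0
    · subst hZ
      have h3 : a * X ^ 2 + b * Y ^ 2 = 0 := by
        have h4 : c * (a * X ^ 2 + b * Y ^ 2) = 0 := by
          linear_combination -h2
        exact (mul_eq_zero.1 h4).resolve_left hc
      have hX : X ≠ 0 := by
        intro hX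
        subst hX
        have h5 : b * Y ^ 2 = 0 := by linear_combination h3
        have h6 : Y = 0 := by
          have h7 := (mul_eq_zero.1 h5).resolve_left hb
          exact pow_eq_zero_iff (two_ne_zero) |>.1 h7
        rcases h1 with h | h | h
        · exact h rfl
        · exact h h6
        · exact h rfl
      have h2' : (2 : K) ≠ 0 := two_ne_zero
      refine ⟨X * ((c - a) / (2 * a * X)) + 1, Y * ((c - a) / (2 * a * X)), ?_⟩
      have h8 : 2 * a * X * ((c - a) / (2 * a * X)) = c - a :=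
        mul_div_cancel₀ _ (mul_ne_zero (mul_ne_zero h2' ha) hX)
      set s := (c - a) / (2 * a * X) with hs
      linear_combination (s ^ 2) * h3 + h8
    · refine ⟨c * X / Z, c * Y / Z, ?_⟩
      have h3 : Z ^ 2 ≠ 0 := pow_ne_zero 2 hZ
      have h4 : a * (c * X / Z) ^ 2 + b * (c * Y / Z) ^ 2 =
          c * (a * c * X ^ 2 + b * c * Y ^ 2) / Z ^ 2 := by
        field_simp
      rw [h4, ← h2, mul_div_assoc, div_self h3, mul_one]

theorem HS_3 (a b : ℝ) (ha : a ≠ 0) (hb : b ≠ 0) : Hs ℝ a b ↔ 0 < a ∨ 0 < b := by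
  constructor
  · rintro ⟨x, y, z, h1, h2⟩
    by_contra hcon
    rw [not_or, not_lt, not_lt] at hcon
    have ha' : a < 0 := lt_of_le_of_ne hcon.1 ha
    have hb' : b < 0 := lt_of_le_of_ne hcon.2 hb
    have hx : 0 ≤ (-a) * x ^ 2 := mul_nonneg (by linarith) (sq_nonneg x)
    have hy : 0 ≤ (-b) * y ^ 2 := mul_nonneg (by linarith) (sq_nonneg y)
    have hz : 0 ≤ z ^ 2 := sq_nonneg z
    have hz0 : z ^ 2 = 0 := by nlinarith
    have hx0 : (-a) * x ^ 2 = 0 := by nlinarith
    have hy0 : (-b) * y ^ 2 = 0 := by nlinarith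
    rcases h1 with h | h | h
    · have := (mul_eq_zero.1 hx0).resolve_left (by linarith)
      exact h (pow_eq_zero_iff two_ne_zero |>.1 this)
    · have := (mul_eq_zero.1 hy0).resolve_left (by linarith)
      exact h (pow_eq_zero_iff two_ne_zero |>.1 this)
    · exact h (pow_eq_zero_iff two_ne_zero |>.1 hz0)
  · rintro (h | h)
    · refine ⟨1, 0, Real.sqrt a, Or.inl one_ne_zero, ?_⟩
      rw [Real.sq_sqrt h.le]
      ring
    · refine ⟨0, 1, Real.sqrt b, Or.inr (Or.inl one_ne_zero), ?_⟩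
      rw [Real.sq_sqrt h.le]
      ring

theorem HS_4 (K : Type) [Field K] [CharZero K] (a b : ℚ) (h : Hs ℚ a b) :
    Hs K (a : K) (b : K) := by
  obtain ⟨x, y, z, h1, h2⟩ := h
  refine ⟨(x : K), (y : K), (z : K), ?_, ?_⟩
  · rcases h1 with h | h | h
    · exact Or.inl (Rat.cast_ne_zero.2 h)
    · exact Or.inr (Or.inl (Rat.cast_ne_zero.2 h))
    · exact Or.inr (Or.inr (Rat.cast_ne_zero.2 h))
  · have h3 : ((z ^ 2 : ℚ) : K) = ((a * x ^ 2 + b * y ^ 2 : ℚ) : K) := by rw [h2]
    push_cast at h3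
    exact h3

theorem t_HS : S_HS :=
  ⟨fun K _ a b s t hs ht => HS_1 K a b s t hs ht,
    fun K _ _ a b c ha hb hc => HS_2 K a b c ha hb hc,
    fun a b ha hb => HS_3 a b ha hb,
    fun K _ _ a b h => HS_4 K a b h⟩

end Pool.Agent.H527R9.CC
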