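import Pool.Agent.H527R9.CC.Defs2

/-!
# INF: values at `n + (m / p ^ k) ^ 2` are `p`-adic squares for large `k`
-/

set_option autoImplicit false

namespace Pool.Agent.H527R9.CC

open Polynomial Filter Topology

theorem INF_sq (hSQ : S_SQ) (p : ℕ) [Fact p.Prime] (G : ℚ_[p][X]) (hG : G.eval 0 ≠ 0)
    (hGs : IsSquare (G.eval 0)) (y : ℕ → ℚ_[p]) (hy : Tendsto y atTop (𝓝 0)) :
    ∃ K : ℕ, ∀ k, K ≤ k → IsSquare (G.eval (y k)) := by
  obtain ⟨ε, hε, h⟩ := hSQ p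
  have h1 : Tendsto (fun k => G.eval (y k) / G.eval 0) atTop (𝓝 1) := by
    have h2 : Tendsto (fun k => G.eval (y k)) atTop (𝓝 (G.eval 0)) :=
      (G.continuous.tendsto 0).comp hy
    have h3 := h2.div_const (G.eval 0)
    rwa [div_self hG] at h3
  rw [Metric.tendsto_atTop] at h1
  obtain ⟨K, hK⟩ := h1 ε hε
  refine ⟨K, fun k hk => ?_⟩
  have h2 := hK k hk
  rw [dist_eq_norm] at h2
  have h3 := h _ h2
  have h4 : G.eval (y k) = G.eval (y k) / G.eval 0 * G.eval 0 := by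
    rw [div_mul_cancel₀ _ hG]
  rw [h4]
  exact h3.mul hGs

theorem t_INF (hSQ : S_SQ) (hQR : S_QR) : S_INF := by
  intro f hf
  have hc : f.leadingCoeff ≠ 0 := leadingCoeff_ne_zero.2 hf
  obtain ⟨D, hD, hDsq⟩ := hQR f.leadingCoeff hc
  refine ⟨D, hD, ?_⟩
  intro p _ hp1 hp2 n m hm
  have hcs := hDsq p hp1 hp2
  set φ : ℚ →+* ℚ_[p] := Rat.castHom ℚ_[p] with hφ
  have hφa : ∀ q : ℚ, φ q = (q : ℚ_[p]) := fun q => rfl
  set g : ℚ[X] := f.comp (X + C (n : ℚ)) with hg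
  have hgl : g.leadingCoeff = f.leadingCoeff := by
    rw [hg, leadingCoeff_comp (by rw [natDegree_X_add_C]; exact one_ne_zero),
      leadingCoeff_X_add_C, one_pow, mul_one]
  set G : ℚ_[p][X] := (reverse g).map φ with hG
  have hG0 : G.eval 0 = (f.leadingCoeff : ℚ_[p]) := by
    rw [← coeff_zero_eq_eval_zero, hG, coeff_map, coeff_zero_reverse, hgl]
    rfl
  have hG0n : G.eval 0 ≠ 0 := by
    rw [hG0]
    exact_mod_cast hc
  have hp0 : (p : ℚ_[p]) ≠ 0 := by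
    exact_mod_cast (Fact.out : p.Prime).ne_zero
  have hm0 : (m : ℚ_[p]) ≠ 0 := by exact_mod_cast hm
  set y : ℕ → ℚ_[p] := fun k => ((p : ℚ_[p]) ^ k / m) ^ 2 with hy
  have hyt : Tendsto y atTop (𝓝 0) := by
    have h1 : Tendsto (fun k : ℕ => (p : ℚ_[p]) ^ k) atTop (𝓝 0) :=
      tendsto_pow_atTop_nhds_zero_of_norm_lt_one Padic.norm_p_lt_one
    have h2 := (h1.div_const (m : ℚ_[p])).pow 2
    rw [zero_div, zero_pow two_ne_zero] at h2
    exact h2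
  obtain ⟨K, hK⟩ := INF_sq hSQ p G hG0n (by rw [hG0]; exact hcs) y hyt
  refine ⟨K, fun k hk => ?_⟩
  have h1 := hK k hk
  set t : ℚ_[p] := ((m : ℚ_[p]) / (p : ℚ_[p]) ^ k) ^ 2 with ht
  have ht0 : t ≠ 0 := pow_ne_zero _ (div_ne_zero hm0 (pow_ne_zero _ hp0))
  have hyk : y k = t⁻¹ := by
    rw [hy, ht, ← inv_pow, inv_div]
  let _ : Invertible t := invertibleOfNonzero ht0
  have h2 := eval₂_reverse_mul_pow φ t g
  rw [invOf_eq_inv, ← hyk, ← eval_map, ← hG] at h2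
  have h3 : ((f.eval ((n : ℚ) + ((m : ℚ) / (p : ℚ) ^ k) ^ 2) : ℚ) : ℚ_[p]) = eval₂ φ t g := by
    have e1 : f.eval ((n : ℚ) + ((m : ℚ) / (p : ℚ) ^ k) ^ 2) =
        g.eval (((m : ℚ) / (p : ℚ) ^ k) ^ 2) := by
      rw [hg, eval_comp, eval_add, eval_X, eval_C, add_comm]
    have e2 : t = φ (((m : ℚ) / (p : ℚ) ^ k) ^ 2) := by
      rw [hφa, ht]
      push_cast
      rfl
    rw [e1, e2, eval₂_at_apply]
    rfl
  rw [h3, ← h2]
  refine h1.mul ?_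
  rw [ht, ← pow_mul, mul_comm 2, pow_mul]
  exact IsSquare.sq _

end Pool.Agent.H527R9.CC
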