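import Pool.Agent.H527R9.CC.Defs3

/-!
# INFK: values at `n + (m / p ^ j) ^ L` are `p`-adic `k`-th powers for large `j`
-/

set_option autoImplicit false

namespace Pool.Agent.H527R9.CC

open Polynomial Filter Topology

theorem INFK_pow (hSQK : S_SQK) (p : ℕ) [Fact p.Prime] (k : ℕ) (hk : k ≠ 0) (G : ℚ_[p][X])
    (hG : G.eval 0 ≠ 0) (hGs : ∃ s : ℚ_[p], s ^ k = G.eval 0) (y : ℕ → ℚ_[p])
    (hy : Tendsto y atTop (𝓝 0)) :
    ∃ K : ℕ, ∀ j, K ≤ j → ∃ s : ℚ_[p], s ^ k = G.eval (y j) := by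
  obtain ⟨ε, hε, h⟩ := hSQK p k hk
  have h1 : Tendsto (fun j => G.eval (y j) / G.eval 0) atTop (𝓝 1) := by
    have h2 : Tendsto (fun j => G.eval (y j)) atTop (𝓝 (G.eval 0)) :=
      (G.continuous.tendsto 0).comp hy
    have h3 := h2.div_const (G.eval 0)
    rwa [div_self hG] at h3
  rw [Metric.tendsto_atTop] at h1
  obtain ⟨K, hK⟩ := h1 ε hε
  refine ⟨K, fun j hj => ?_⟩
  have h2 := hK j hj
  rw [dist_eq_norm] at h2
  obtain ⟨s, hs⟩ := h _ h2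
  obtain ⟨r, hr⟩ := hGs
  exact ⟨s * r, by rw [mul_pow, hs, hr, div_mul_cancel₀ _ hG]⟩

theorem t_INFK (hSQK : S_SQK) : S_INFK := by
  intro f k hf hk p _ hcs L hL hkL n m hm
  have hc : f.leadingCoeff ≠ 0 := leadingCoeff_ne_zero.2 hf
  set φ : ℚ →+* ℚ_[p] := Rat.castHom ℚ_[p] with hφ
  have hφa : ∀ q : ℚ, φ q = (q : ℚ_[p]) := fun q => rfl
  set g : ℚ[X] := f.comp (X + C (n : ℚ)) with hg
  have hgl : g.leadingCoeff = f.leadingCoeff := by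
    rw [hg, leadingCoeff_comp (by rw [natDegree_X_add_C]; exact one_ne_zero),
      leadingCoeff_X_add_C, one_pow, mul_one]
  set G : ℚ_[p][X] := (reverse g).map φ with hG
  have hG0 : G.eval 0 = (f.leadingCoeff : ℚ_[p]) := by
    rw [← coeff_zero_eq_eval_zero, hG, coeff_map, coeff_zero_reverse, hgl]
    rfl
  have hG0n : G.eval 0 ≠ 0 := by
    rw [hG0]
    exact_mod_cast hc
  have hp0 : (p : ℚ_[p]) ≠ 0 := by
    exact_mod_cast (Fact.out : p.Prime).ne_zero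
  have hm0 : (m : ℚ_[p]) ≠ 0 := by exact_mod_cast hm
  set y : ℕ → ℚ_[p] := fun j => ((p : ℚ_[p]) ^ j / m) ^ L with hy
  have hyt : Tendsto y atTop (𝓝 0) := by
    have h1 : Tendsto (fun j : ℕ => (p : ℚ_[p]) ^ j) atTop (𝓝 0) :=
      tendsto_pow_atTop_nhds_zero_of_norm_lt_one Padic.norm_p_lt_one
    have h2 := (h1.div_const (m : ℚ_[p])).pow L
    rw [zero_div, zero_pow hL] at h2
    exact h2
  obtain ⟨K, hK⟩ := INFK_pow hSQK p k hk G hG0n (by rw [hG0]; exact hcs) y hyt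
  refine ⟨K, fun j hj => ?_⟩
  obtain ⟨s, hs⟩ := hK j hj
  set t : ℚ_[p] := ((m : ℚ_[p]) / (p : ℚ_[p]) ^ j) ^ L with ht
  have ht0 : t ≠ 0 := pow_ne_zero _ (div_ne_zero hm0 (pow_ne_zero _ hp0))
  have hyk : y j = t⁻¹ := by
    rw [hy, ht, ← inv_pow, inv_div]
  let _ : Invertible t := invertibleOfNonzero ht0
  have h2 := eval₂_reverse_mul_pow φ t g
  rw [invOf_eq_inv, ← hyk, ← eval_map, ← hG] at h2
  have h3 : ((f.eval ((n : ℚ) + ((m : ℚ) / (p : ℚ) ^ j) ^ L) : ℚ) : ℚ_[p]) = eval₂ φ t g := by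
    have e1 : f.eval ((n : ℚ) + ((m : ℚ) / (p : ℚ) ^ j) ^ L) =
        g.eval (((m : ℚ) / (p : ℚ) ^ j) ^ L) := by
      rw [hg, eval_comp, eval_add, eval_X, eval_C, add_comm]
    have e2 : t = φ (((m : ℚ) / (p : ℚ) ^ j) ^ L) := by
      rw [hφa, ht]
      push_cast
      rfl
    rw [e1, e2, eval₂_at_apply]
    rfl
  obtain ⟨q, hq⟩ := hkL
  refine ⟨s * (((m : ℚ_[p]) / (p : ℚ_[p]) ^ j) ^ q) ^ g.natDegree, ?_⟩
  rw [h3, ← h2, mul_pow, hs]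
  congr 1
  rw [ht, hq, ← pow_mul, ← pow_mul, ← pow_mul]
  congr 1
  ring

end Pool.Agent.H527R9.CC
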