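import Pool.Agent.H527R9.CC.Defs2

set_option autoImplicit false

namespace Pool.Agent.H527R9.CC

open Polynomial

theorem LC_real (f : ℚ[X]) (x : ℚ) (hx : f.eval x ≠ 0) :
    ∃ ε : ℚ, 0 < ε ∧ ∀ y : ℚ, |y - x| < ε → 0 < f.eval y / f.eval x := by
  have hc : Continuous fun y : ℚ => f.eval y / f.eval x := f.continuous.div_const _
  have ho : IsOpen {y : ℚ | 0 < f.eval y / f.eval x} := isOpen_lt continuous_const hc
  have hmem : x ∈ {y : ℚ | 0 < f.eval y / f.eval x} := by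
    show 0 < f.eval x / f.eval x
    rw [div_self hx]
    exact one_pos
  obtain ⟨δ, hδ, hball⟩ := Metric.isOpen_iff.1 ho x hmem
  obtain ⟨ε, hε0, hεδ⟩ := exists_rat_btwn hδ
  refine ⟨ε, by exact_mod_cast hε0, fun y hy => ?_⟩
  refine hball ?_
  rw [Metric.mem_ball, Rat.dist_eq]
  refine lt_trans ?_ hεδ
  have : ((|y - x| : ℚ) : ℝ) < (ε : ℝ) := by exact_mod_cast hy
  rwa [Rat.cast_abs, Rat.cast_sub] at this

theorem LC_padic (hSQ : S_SQ) (f : ℚ[X]) (x : ℚ) (hx : f.eval x ≠ 0) (p : ℕ) [Fact p.Prime] :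
    ∃ ε : ℚ, 0 < ε ∧ ∀ y : ℚ, padicNorm p (y - x) < ε →
      f.eval y ≠ 0 ∧ IsSquare (((f.eval y / f.eval x : ℚ) : ℚ_[p])) := by
  obtain ⟨ε0, hε0, hsq⟩ := hSQ p
  set F : ℚ_[p][X] := f.map (algebraMap ℚ ℚ_[p]) with hF
  have hcast : ∀ y : ℚ, ((f.eval y : ℚ) : ℚ_[p]) = F.eval (y : ℚ_[p]) := by
    intro y
    have h1 := Polynomial.eval₂_at_apply (p := f) (algebraMap ℚ ℚ_[p]) y
    rw [hF, Polynomial.eval_map]
    simpa using h1.symm
  have hx' : F.eval (x : ℚ_[p]) ≠ 0 := by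
    rw [← hcast]
    exact_mod_cast hx
  have hc : Continuous fun z : ℚ_[p] => F.eval z / F.eval (x : ℚ_[p]) := F.continuous.div_const _
  have hpos : 0 < min ε0 1 := lt_min hε0 one_pos
  obtain ⟨δ, hδ, hball⟩ := Metric.continuous_iff.1 hc (x : ℚ_[p]) (min ε0 1) hpos
  obtain ⟨ε, hε1, hεδ⟩ := exists_rat_btwn hδ
  refine ⟨ε, by exact_mod_cast hε1, fun y hy => ?_⟩
  have hdist : dist (y : ℚ_[p]) (x : ℚ_[p]) < δ := by
    rw [dist_eq_norm, ← Rat.cast_sub, Padic.eq_padicNorm]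
    refine lt_trans ?_ hεδ
    exact_mod_cast hy
  have h1 := hball _ hdist
  rw [dist_eq_norm, div_self hx', ← hcast, ← hcast, ← Rat.cast_div] at h1
  refine ⟨?_, hsq _ (lt_of_lt_of_le h1 (min_le_left _ _))⟩
  intro h0
  rw [h0, zero_div, Rat.cast_zero, zero_sub, norm_neg, norm_one] at h1
  exact absurd (lt_of_lt_of_le h1 (min_le_right _ _)) (lt_irrefl _)

theorem t_LC (hSQ : S_SQ) : S_LC := fun f x hx =>
  ⟨LC_real f x hx, fun p _ => LC_padic hSQ f x hx p⟩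

end Pool.Agent.H527R9.CC
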