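import Pool.Agent.H527R9.CC.Defs3

set_option autoImplicit false

namespace Pool.Agent.H527R9.CC

open Polynomial

theorem t_LCK (hSQK : S_SQK) : S_LCK := by
  intro f x k hk hx p _
  obtain ⟨ε0, hε0, hsq⟩ := hSQK p k hk
  set F : ℚ_[p][X] := f.map (algebraMap ℚ ℚ_[p]) with hF
  have hcast : ∀ y : ℚ, ((f.eval y : ℚ) : ℚ_[p]) = F.eval (y : ℚ_[p]) := by
    intro y
    have h1 := Polynomial.eval₂_at_apply (p := f) (algebraMap ℚ ℚ_[p]) y
    rw [hF, Polynomial.eval_map]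
    simpa using h1.symm
  have hx' : F.eval (x : ℚ_[p]) ≠ 0 := by
    rw [← hcast]
    exact_mod_cast hx
  have hc : Continuous fun z : ℚ_[p] => F.eval z / F.eval (x : ℚ_[p]) := F.continuous.div_const _
  have hpos : 0 < min ε0 1 := lt_min hε0 one_pos
  obtain ⟨δ, hδ, hball⟩ := Metric.continuous_iff.1 hc (x : ℚ_[p]) (min ε0 1) hpos
  obtain ⟨ε, hε1, hεδ⟩ := exists_rat_btwn hδ
  refine ⟨ε, by exact_mod_cast hε1, fun y hy => ?_⟩
  have hdist : dist (y : ℚ_[p]) (x : ℚ_[p]) < δ := by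
    rw [dist_eq_norm, ← Rat.cast_sub, Padic.eq_padicNorm]
    refine lt_trans ?_ hεδ
    exact_mod_cast hy
  have h1 := hball _ hdist
  rw [dist_eq_norm, div_self hx', ← hcast, ← hcast, ← Rat.cast_div] at h1
  refine ⟨?_, hsq _ (lt_of_lt_of_le h1 (min_le_left _ _))⟩
  intro h0
  rw [h0, zero_div, Rat.cast_zero, zero_sub, norm_neg, norm_one] at h1
  exact absurd (lt_of_lt_of_le h1 (min_le_right _ _)) (lt_irrefl _)

end Pool.Agent.H527R9.CC
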