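import Pool.Agent.H527R9.CC.Defs2

set_option autoImplicit false

namespace Pool.Agent.H527R9.CC

open Polynomial

theorem t_LOC : S_LOC := by
  constructor
  · rintro D ⟨F, hF, h⟩
    refine ⟨D, fun _ => Set.univ, F, 1, hF, one_ne_zero, ?_, h, ?_, ?_⟩
    · intro x _
      exact ⟨fun hx => ⟨hx, fun _ _ => trivial⟩, fun hx => hx.1⟩
    · intro p _ x _
      exact ⟨1, one_pos, fun _ _ => Iff.rfl⟩
    · intro p _ _ _ n m _
      exact ⟨0, fun _ _ => trivial⟩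
  · rintro q D hq ⟨F, hF, h⟩
    refine ⟨Set.univ, fun p => {x | p = q → x ∈ D}, F, q, hF, hq.ne_zero, ?_, ?_, ?_, ?_⟩
    · intro x _
      exact ⟨fun hx => ⟨trivial, fun _ _ _ => hx⟩, fun hx => hx.2 q hq rfl⟩
    · intro x _
      exact ⟨1, one_pos, fun _ _ => Iff.rfl⟩
    · intro p _ x hx
      by_cases hpq : p = q
      · subst hpq
        obtain ⟨ε, h1, h2⟩ := h x hx
        refine ⟨ε, h1, fun y hy => ?_⟩
        exact ⟨fun h3 _ => (h2 y hy).1 (h3 rfl), fun h3 _ => (h2 y hy).2 (h3 rfl)⟩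
      · exact ⟨1, one_pos, fun y _ => ⟨fun _ h3 => absurd h3 hpq, fun _ h3 => absurd h3 hpq⟩⟩
    · intro p _ _ hp n m _
      exact ⟨0, fun _ _ h3 => absurd h3 hp.ne'⟩

end Pool.Agent.H527R9.CC
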