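import Pool.Agent.H527R9.CC.Defs2

set_option autoImplicit false

namespace Pool.Agent.H527R9.CC

open Polynomial

theorem t_NCG : S_NCG := by
  intro S T hE hS
  obtain ⟨R, P, F, D, hF, hD, h1, h2, h3, h4⟩ := hS
  refine ⟨R, P, F ∪ {x | ¬ (x ∈ S ↔ x ∈ T)}, D, hF.union hE, hD, ?_, ?_, ?_, h4⟩
  · intro x hx
    have hx1 : x ∉ F := fun h => hx (Or.inl h)
    have hx2 : x ∈ S ↔ x ∈ T := by
      by_contra h
      exact hx (Or.inr h)
    rw [← hx2]
    exact h1 x hx1
  · intro x hx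
    exact h2 x fun h => hx (Or.inl h)
  · intro p hp x hx
    exact h3 p hp x fun h => hx (Or.inl h)

end Pool.Agent.H527R9.CC
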