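import Pool.Agent.H527R9.CC.Defs3

set_option autoImplicit false

namespace Pool.Agent.H527R9.CC

open Polynomial

theorem t_NPK (hHMK : S_HMK) (hLCK : S_LCK) (hINFK : S_INFK) (hLC : S_LC) : S_NPK := by
  intro k f hk hf Q
  refine ⟨{x | ∃ s : ℝ, s ^ k = ((f.eval x : ℚ) : ℝ)}, fun p => {x | ∀ _h : Fact p.Prime,
    ∃ s : ℚ_[p], s ^ k = ((f.eval x : ℚ) : ℚ_[p])}, {x | f.eval x = 0}, 1, k,
    {f.leadingCoeff}, ?_, one_ne_zero, hk, ?_, ?_, ?_, ?_, ?_⟩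
  · refine (f.roots.toFinset.finite_toSet).subset ?_
    intro x hx
    rw [Finset.mem_coe, Multiset.mem_toFinset, Polynomial.mem_roots hf]
    exact hx
  · rw [Finset.mem_singleton]
    intro h
    exact hf (Polynomial.leadingCoeff_eq_zero.mp h.symm)
  · intro x hx
    have hx0 : f.eval x ≠ 0 := hx
    constructor
    · intro hsq
      obtain ⟨r, hr⟩ : ∃ y : ℚ, y ^ k = f.eval x := hsq
      refine ⟨⟨(r : ℝ), ?_⟩, ?_⟩
      · rw [← hr, Rat.cast_pow]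
      · intro p _ _h
        refine ⟨(r : ℚ_[p]), ?_⟩
        rw [← hr, Rat.cast_pow]
    · rintro ⟨h1, h2⟩
      exact hHMK _ k hx0 hk h1 fun p hp => h2 p hp.out hp
  · intro x hx
    have hx0 : f.eval x ≠ 0 := hx
    obtain ⟨ε, hε, h⟩ := (hLC f x hx0).1
    refine ⟨ε, hε, fun y hy => ?_⟩
    have h1 := h y hy
    have hfy0 : f.eval y ≠ 0 := by
      intro h0
      rw [h0, zero_div] at h1
      exact lt_irrefl _ h1
    have hfx : ((f.eval x : ℚ) : ℝ) ≠ 0 := by exact_mod_cast hx0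
    have h1' : (0 : ℝ) < ((f.eval y / f.eval x : ℚ) : ℝ) := by exact_mod_cast h1
    have ht : ((((f.eval y / f.eval x : ℚ) : ℝ)) ^ ((k : ℝ)⁻¹)) ^ k =
        ((f.eval y / f.eval x : ℚ) : ℝ) := Real.rpow_inv_natCast_pow h1'.le hk
    have ht0 : 0 < ((((f.eval y / f.eval x : ℚ) : ℝ)) ^ ((k : ℝ)⁻¹)) := Real.rpow_pos_of_pos h1' _
    generalize ((((f.eval y / f.eval x : ℚ) : ℝ)) ^ ((k : ℝ)⁻¹)) = t at ht ht0
    rw [Rat.cast_div] at ht
    have hr2 : ((f.eval y : ℚ) : ℝ) = t ^ k * ((f.eval x : ℚ) : ℝ) := by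
      rw [ht, div_mul_cancel₀ _ hfx]
    show (∃ s : ℝ, s ^ k = ((f.eval y : ℚ) : ℝ)) ↔ (∃ s : ℝ, s ^ k = ((f.eval x : ℚ) : ℝ))
    constructor
    · rintro ⟨s, hs⟩
      refine ⟨s / t, ?_⟩
      rw [div_pow, hs, hr2, mul_comm, mul_div_assoc, div_self (pow_ne_zero k ht0.ne'), mul_one]
    · rintro ⟨s, hs⟩
      refine ⟨t * s, ?_⟩
      rw [mul_pow, hs, hr2]
  · intro p hp x hx
    have hx0 : f.eval x ≠ 0 := hx
    haveI : Fact p.Prime := ⟨hp⟩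
    obtain ⟨ε, hε, h⟩ := hLCK f x k hk hx0 p
    refine ⟨ε, hε, fun y hy => ?_⟩
    obtain ⟨h1, r, hr⟩ := h y hy
    have hfx : ((f.eval x : ℚ) : ℚ_[p]) ≠ 0 := by exact_mod_cast hx0
    have hfy : ((f.eval y : ℚ) : ℚ_[p]) ≠ 0 := by exact_mod_cast h1
    rw [Rat.cast_div] at hr
    have hr2 : ((f.eval y : ℚ) : ℚ_[p]) = r ^ k * ((f.eval x : ℚ) : ℚ_[p]) := by
      rw [hr, div_mul_cancel₀ _ hfx]
    have hr0 : r ≠ 0 := by
      rintro rfl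
      rw [zero_pow hk, zero_mul] at hr2
      exact hfy hr2
    show (∀ _h : Fact p.Prime, ∃ s : ℚ_[p], s ^ k = ((f.eval y : ℚ) : ℚ_[p])) ↔
      (∀ _h : Fact p.Prime, ∃ s : ℚ_[p], s ^ k = ((f.eval x : ℚ) : ℚ_[p]))
    constructor
    · intro h5 _
      obtain ⟨s, hs⟩ := h5 ⟨hp⟩
      refine ⟨s / r, ?_⟩
      rw [div_pow, hs, hr2, mul_comm, mul_div_assoc, div_self (pow_ne_zero k hr0), mul_one]
    · intro h5 _
      obtain ⟨s, hs⟩ := h5 ⟨hp⟩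
      refine ⟨r * s, ?_⟩
      rw [mul_pow, hs, hr2]
  · intro p hpF _ _ _ hC M hM hkM _ n m hm
    obtain ⟨K, hK⟩ := hINFK f k hf hk p (hC _ (Finset.mem_singleton_self _)) M hM hkM n m hm
    exact ⟨K, fun j hj _ => hK j hj⟩

end Pool.Agent.H527R9.CC
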