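import Pool.Agent.H527R9.CC.Defs2

set_option autoImplicit false

namespace Pool.Agent.H527R9.CC

open Polynomial

theorem t_NSQ (hHM2 : S_HM2) (hLC : S_LC) (hINF : S_INF) : S_NSQ := by
  intro f hf
  obtain ⟨D, hD0, hD⟩ := hINF f hf
  refine ⟨{x | 0 < f.eval x}, fun p => {x | ∀ _h : Fact p.Prime,
    IsSquare (((f.eval x : ℚ)) : ℚ_[p])}, {x | f.eval x = 0}, D, ?_, hD0, ?_, ?_, ?_, ?_⟩
  · refine (f.roots.toFinset.finite_toSet).subset ?_
    intro x hx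
    rw [Finset.mem_coe, Multiset.mem_toFinset, Polynomial.mem_roots hf]
    exact hx
  · intro x hx
    have hx0 : f.eval x ≠ 0 := hx
    constructor
    · intro hsq
      obtain ⟨r, hr⟩ : IsSquare (f.eval x) := hsq
      refine ⟨?_, ?_⟩
      · show 0 < f.eval x
        rcases (hr ▸ mul_self_nonneg r : 0 ≤ f.eval x).lt_or_eq with h | h
        · exact h
        · exact absurd h.symm hx0
      · intro p _ _h
        refine ⟨(r : ℚ_[p]), ?_⟩
        rw [hr]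
        push_cast
        rfl
    · rintro ⟨h1, h2⟩
      exact hHM2 _ hx0 h1 fun p hp => h2 p hp.out hp
  · intro x hx
    have hx0 : f.eval x ≠ 0 := hx
    obtain ⟨ε, hε, h⟩ := (hLC f x hx0).1
    refine ⟨ε, hε, fun y hy => ?_⟩
    have h1 := h y hy
    show 0 < f.eval y ↔ 0 < f.eval x
    rcases div_pos_iff.mp h1 with ⟨h2, h3⟩ | ⟨h2, h3⟩
    · exact ⟨fun _ => h3, fun _ => h2⟩
    · exact ⟨fun h4 => absurd h4 (not_lt.mpr h2.le), fun h4 => absurd h4 (not_lt.mpr h3.le)⟩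
  · intro p hp x hx
    have hx0 : f.eval x ≠ 0 := hx
    haveI : Fact p.Prime := ⟨hp⟩
    obtain ⟨ε, hε, h⟩ := (hLC f x hx0).2 p
    refine ⟨ε, hε, fun y hy => ?_⟩
    obtain ⟨h1, r, hr⟩ := h y hy
    have hfx : ((f.eval x : ℚ) : ℚ_[p]) ≠ 0 := by exact_mod_cast hx0
    have hfy : ((f.eval y : ℚ) : ℚ_[p]) ≠ 0 := by exact_mod_cast h1
    rw [Rat.cast_div] at hr
    have hr2 : ((f.eval y : ℚ) : ℚ_[p]) = r * r * ((f.eval x : ℚ) : ℚ_[p]) := by
      rw [← hr, div_mul_cancel₀ _ hfx]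
    have hr0 : r ≠ 0 := by
      rintro rfl
      rw [zero_mul, zero_mul] at hr2
      exact hfy hr2
    show (∀ _h : Fact p.Prime, IsSquare (((f.eval y : ℚ)) : ℚ_[p])) ↔
      (∀ _h : Fact p.Prime, IsSquare (((f.eval x : ℚ)) : ℚ_[p]))
    constructor
    · intro h5 _
      obtain ⟨s, hs⟩ := h5 ⟨hp⟩
      refine ⟨s / r, ?_⟩
      rw [hs] at hr2
      field_simp
      linear_combination -hr2
    · intro h5 _
      obtain ⟨s, hs⟩ := h5 ⟨hp⟩
      refine ⟨r * s, ?_⟩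
      rw [hr2, hs]
      ring
  · intro p hp h1 h2 n m hm
    haveI : Fact p.Prime := ⟨hp⟩
    obtain ⟨K, hK⟩ := hD p h1 h2 n m hm
    exact ⟨K, fun k hk _ => hK k hk⟩

end Pool.Agent.H527R9.CC
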