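import Pool.Agent.H527R9.CC.Defs2

/-!
# A rational number is a square in `ℚ_[p]` for all large `p = 1 mod D`
-/

set_option autoImplicit false

namespace Pool.Agent.H527R9.CC

open Polynomial

/-- an integer that is a nonzero square mod an odd prime is a square in `ℤ_[p]` -/
theorem QR_hensel (p : ℕ) [Fact p.Prime] (hp2 : p ≠ 2) (N : ℤ) (hN : ¬ (p : ℤ) ∣ N)
    (h : IsSquare ((N : ℤ) : ZMod p)) : IsSquare ((N : ℤ) : ℤ_[p]) := by
  obtain ⟨r, hr⟩ := h
  have hs : ((r.val : ℤ) : ZMod p) = r := by simp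
  have hdvd : (p : ℤ) ∣ (r.val : ℤ) * r.val - N := by
    rw [← ZMod.intCast_eq_intCast_iff_dvd_sub]
    rw [hr, Int.cast_mul, hs]
  have hns : ¬ (p : ℤ) ∣ 2 * (r.val : ℤ) := by
    intro h1
    have hpp : Prime (p : ℤ) := Nat.prime_iff_prime_int.1 (Fact.out : p.Prime)
    rcases hpp.dvd_or_dvd h1 with h2 | h2
    · have h3 : p ∣ 2 := by exact_mod_cast h2
      exact hp2 ((Nat.prime_dvd_prime_iff_eq Fact.out Nat.prime_two).1 h3)
    · have h3 : (p : ℤ) ∣ (r.val : ℤ) * r.val := Dvd.dvd.mul_right h2 _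
      exact hN ((dvd_iff_dvd_of_dvd_sub hdvd).1 h3)
  have h1 : ‖(((r.val : ℤ) * r.val - N : ℤ) : ℤ_[p])‖ < 1 :=
    (PadicInt.norm_int_lt_one_iff_dvd _).2 hdvd
  have h2 : ‖((2 * (r.val : ℤ) : ℤ) : ℤ_[p])‖ = 1 := by
    refine le_antisymm (PadicInt.norm_le_one _) (not_lt.1 (fun h => ?_))
    exact hns ((PadicInt.norm_int_lt_one_iff_dvd _).1 h)
  have hF : ‖(X ^ 2 - C ((N : ℤ) : ℤ_[p])).aeval (((r.val : ℤ)) : ℤ_[p])‖ <
      ‖(derivative (X ^ 2 - C ((N : ℤ) : ℤ_[p]))).aeval (((r.val : ℤ)) : ℤ_[p])‖ ^ 2 := by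
    have e1 : (X ^ 2 - C ((N : ℤ) : ℤ_[p])).aeval (((r.val : ℤ)) : ℤ_[p]) =
        (((r.val : ℤ) * r.val - N : ℤ) : ℤ_[p]) := by
      simp only [map_sub, map_pow, aeval_X, aeval_C, Algebra.algebraMap_self, RingHom.id_apply]
      push_cast
      ring
    have e2 : (derivative (X ^ 2 - C ((N : ℤ) : ℤ_[p]))).aeval (((r.val : ℤ)) : ℤ_[p]) =
        ((2 * (r.val : ℤ) : ℤ) : ℤ_[p]) := by
      simp only [derivative_sub, derivative_X_pow, derivative_C, sub_zero, map_mul, aeval_C,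
        map_pow, aeval_X, Algebra.algebraMap_self, RingHom.id_apply]
      push_cast
      ring
    rw [e1, e2, h2]
    simpa using h1
  obtain ⟨z, hz, -⟩ := hensels_lemma hF
  refine ⟨z, ?_⟩
  have h3 : z ^ 2 - ((N : ℤ) : ℤ_[p]) = 0 := by
    have := hz
    simp only [map_sub, map_pow, aeval_X, aeval_C, Algebra.algebraMap_self,
      RingHom.id_apply] at this
    exact this
  have h4 := sub_eq_zero.1 h3
  rw [← h4, sq]

theorem t_QR (_hSQ : S_SQ) : S_QR := by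
  intro c hc
  have hN : c.num * (c.den : ℤ) ≠ 0 :=
    mul_ne_zero (Rat.num_ne_zero.2 hc) (by exact_mod_cast c.den_nz)
  refine ⟨4 * (c.num * (c.den : ℤ)).natAbs, by
    have := Int.natAbs_pos.2 hN; omega, ?_⟩
  intro p hp hmod hlt
  generalize hNN : c.num * (c.den : ℤ) = N at hN hmod hlt
  have hNpos : 0 < N.natAbs := Int.natAbs_pos.2 hN
  have hp2 : p ≠ 2 := by omega
  have hodd : Odd p := (Fact.out : p.Prime).odd_of_ne_two hp2
  have hndvd : ¬ (p : ℤ) ∣ N := by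
    intro h
    have h1 : p ∣ N.natAbs := Int.natCast_dvd.1 h
    have h2 := Nat.le_of_dvd hNpos h1
    omega
  have hmod2 : p % (4 * N.natAbs) = 1 := by
    have h1 : p % (4 * N.natAbs) = 1 % (4 * N.natAbs) := hmod
    rw [h1]
    exact Nat.mod_eq_of_lt (by omega)
  have hJ : jacobiSym N p = 1 := by
    rw [jacobiSym.mod_right N hodd, hmod2, jacobiSym.one_right]
  have hne : ((N : ℤ) : ZMod p) ≠ 0 := by
    intro h
    exact hndvd ((ZMod.intCast_zmod_eq_zero_iff_dvd N p).1 h)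
  have hsq : IsSquare ((N : ℤ) : ZMod p) := by
    rw [← jacobiSym.legendreSym.to_jacobiSym] at hJ
    exact (legendreSym.eq_one_iff p hne).1 hJ
  obtain ⟨z, hz⟩ := QR_hensel p hp2 N hndvd hsq
  have hz2 : ((N : ℤ) : ℚ_[p]) = (z : ℚ_[p]) * (z : ℚ_[p]) := by
    have := congrArg (fun x : ℤ_[p] => (x : ℚ_[p])) hz
    simpa using this
  have hden : ((c.den : ℚ_[p])) ≠ 0 := by
    exact_mod_cast c.den_nz
  refine ⟨(z : ℚ_[p]) / (c.den : ℚ_[p]), ?_⟩
  have hc2 : (c : ℚ_[p]) = (c.num : ℚ_[p]) / (c.den : ℚ_[p]) := by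
    conv_lhs => rw [← Rat.num_div_den c]
    push_cast
    rfl
  have hN2 : ((N : ℤ) : ℚ_[p]) = (c.num : ℚ_[p]) * (c.den : ℚ_[p]) := by
    rw [← hNN]; push_cast; rfl
  rw [hc2]
  field_simp
  rw [hN2] at hz2
  linear_combination hz2

end Pool.Agent.H527R9.CC
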