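import Pool.Agent.H527R9.CC.Defs3

set_option autoImplicit false

namespace Pool.Agent.H527R9.CC

open Polynomial

/-- the polynomial whose roots give `L`-th roots of `c` -/
noncomputable def RICH_f (L : ℕ) (c : ℚ) : ℤ[X] := X ^ L - C (c.num * (c.den : ℤ) ^ (L - 1))

theorem RICH_natDegree (L : ℕ) (c : ℚ) : (RICH_f L c).natDegree = L := by
  unfold RICH_f
  exact natDegree_X_pow_sub_C

theorem RICH_eval (L : ℕ) (c : ℚ) (r : ℤ) :
    (RICH_f L c).eval r = r ^ L - c.num * (c.den : ℤ) ^ (L - 1) := by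
  unfold RICH_f
  simp

theorem RICH_root (p : ℕ) [Fact p.Prime] (L : ℕ) (hL : L ≠ 0) (c : ℚ) (r : ℤ)
    (hr : (p : ℤ) ∣ (RICH_f L c).eval r) (h1 : ¬ (p : ℤ) ∣ c.num) (h2 : ¬ (p : ℤ) ∣ (c.den : ℤ))
    (h3 : ¬ (p : ℤ) ∣ (L : ℤ)) : ∃ s : ℚ_[p], s ^ L = (c : ℚ_[p]) := by
  have hp : Prime (p : ℤ) := Nat.prime_iff_prime_int.1 (Fact.out : p.Prime)
  rw [RICH_eval] at hr
  have hr0 : ¬ (p : ℤ) ∣ r := by
    intro h
    have h4 : (p : ℤ) ∣ r ^ L := dvd_pow h hL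
    have h5 : (p : ℤ) ∣ c.num * (c.den : ℤ) ^ (L - 1) := by
      have := dvd_sub h4 hr
      simpa using this
    rcases hp.dvd_or_dvd h5 with h6 | h6
    · exact h1 h6
    · exact h2 (hp.dvd_of_dvd_pow h6)
  have hder : ‖(((L : ℤ) * r ^ (L - 1) : ℤ) : ℤ_[p])‖ = 1 := by
    refine le_antisymm (PadicInt.norm_le_one _) ?_
    by_contra h
    rw [not_le, PadicInt.norm_int_lt_one_iff_dvd] at h
    rcases hp.dvd_or_dvd h with h6 | h6
    · exact h3 h6
    · exact hr0 (hp.dvd_of_dvd_pow h6)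
  have hval : ‖((r ^ L - c.num * (c.den : ℤ) ^ (L - 1) : ℤ) : ℤ_[p])‖ < 1 := by
    rw [PadicInt.norm_int_lt_one_iff_dvd]
    exact hr
  have e1 : Polynomial.aeval (r : ℤ_[p]) (RICH_f L c) =
      ((r ^ L - c.num * (c.den : ℤ) ^ (L - 1) : ℤ) : ℤ_[p]) := by
    unfold RICH_f
    simp
  have e2 : Polynomial.aeval (r : ℤ_[p]) (derivative (RICH_f L c)) =
      (((L : ℤ) * r ^ (L - 1) : ℤ) : ℤ_[p]) := by
    have e4 : derivative (RICH_f L c) = C (L : ℤ) * X ^ (L - 1) := by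
      unfold RICH_f
      rw [derivative_sub, derivative_C, derivative_X_pow, sub_zero]
    rw [e4, map_mul, aeval_C, map_pow, aeval_X]
    simp
  obtain ⟨z, hz, -⟩ := hensels_lemma (p := p) (F := RICH_f L c) (a := (r : ℤ_[p])) (by
    rw [e1, e2, hder]
    simpa using hval)
  have hz2 : z ^ L = (c.num : ℤ_[p]) * (c.den : ℤ_[p]) ^ (L - 1) := by
    have e3 : Polynomial.aeval z (RICH_f L c) =
        z ^ L - (c.num : ℤ_[p]) * (c.den : ℤ_[p]) ^ (L - 1) := by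
      unfold RICH_f
      simp
    rw [e3] at hz
    exact sub_eq_zero.1 hz
  have hz3 : (z : ℚ_[p]) ^ L = (c.num : ℚ_[p]) * (c.den : ℚ_[p]) ^ (L - 1) := by
    have := congrArg (fun x : ℤ_[p] => (x : ℚ_[p])) hz2
    simpa using this
  have hden : (c.den : ℚ_[p]) ≠ 0 := by
    exact_mod_cast c.den_nz
  refine ⟨(z : ℚ_[p]) / (c.den : ℚ_[p]), ?_⟩
  rw [div_pow, hz3]
  have hc : (c : ℚ_[p]) = (c.num : ℚ_[p]) / (c.den : ℚ_[p]) := by
    conv_lhs => rw [← Rat.num_div_den c]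
    push_cast
    rfl
  rw [hc, div_eq_div_iff (pow_ne_zero _ hden) hden]
  obtain ⟨l, rfl⟩ : ∃ l, L = l + 1 := ⟨L - 1, by omega⟩
  simp only [Nat.add_sub_cancel]
  ring

theorem RICH_cyc (p : ℕ) [Fact p.Prime] (D : ℕ) (hD : D ≠ 0) (hDp : D < p) (r : ℤ)
    (hr : (p : ℤ) ∣ (cyclotomic D ℤ).eval r) : p ≡ 1 [MOD D] := by
  have hne : NeZero ((D : ℕ) : ZMod p) := by
    refine ⟨?_⟩
    rw [Ne, ZMod.natCast_eq_zero_iff]
    intro h
    exact absurd (Nat.le_of_dvd (Nat.pos_of_ne_zero hD) h) (not_le.2 hDp)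
  have h1 : (((cyclotomic D ℤ).eval r : ℤ) : ZMod p) = 0 :=
    (ZMod.intCast_zmod_eq_zero_iff_dvd _ _).2 hr
  have h2 : IsRoot (cyclotomic D (ZMod p)) (r : ZMod p) := by
    show (cyclotomic D (ZMod p)).eval (r : ZMod p) = 0
    rw [← h1, ← map_cyclotomic D (Int.castRingHom (ZMod p))]
    rw [eval_intCast_map]
    rfl
  have h3 : IsPrimitiveRoot (r : ZMod p) D := isRoot_cyclotomic_iff.1 h2
  have h4 : (r : ZMod p) ≠ 0 := h3.ne_zero hD
  have h5 : orderOf (r : ZMod p) ∣ p - 1 := ZMod.orderOf_dvd_card_sub_one h4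
  rw [← h3.eq_orderOf] at h5
  have h6 : 1 ≤ p := (Fact.out : p.Prime).one_le
  exact ((Nat.modEq_iff_dvd' h6).2 h5).symm

theorem t_RICH (hROOTS : S_ROOTS) : S_RICH := by
  classical
  intro S L D N h0 hL hD
  obtain ⟨p, hp, hlt, hroot⟩ := hROOTS (insert (cyclotomic D ℤ) (S.image (RICH_f L))) (by
    intro f hf
    rcases Finset.mem_insert.1 hf with rfl | hf
    · rw [natDegree_cyclotomic]
      exact Nat.totient_pos.2 (Nat.pos_of_ne_zero hD)
    · obtain ⟨c, -, rfl⟩ := Finset.mem_image.1 hf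
      rw [RICH_natDegree L]
      exact Nat.pos_of_ne_zero hL) (N + L + D + ∑ c ∈ S, (c.num.natAbs + c.den))
  have : Fact p.Prime := ⟨hp⟩
  refine ⟨p, this, Set.mem_univ _, by omega, ?_, ?_⟩
  · obtain ⟨r, hr⟩ := hroot _ (Finset.mem_insert_self _ _)
    exact RICH_cyc p D hD (by omega) r hr
  · intro c hc
    obtain ⟨r, hr⟩ := hroot _ (Finset.mem_insert_of_mem (Finset.mem_image_of_mem _ hc))
    have hsum : c.num.natAbs + c.den ≤ ∑ c ∈ S, (c.num.natAbs + c.den) :=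
      Finset.single_le_sum (f := fun c : ℚ => c.num.natAbs + c.den) (fun _ _ => Nat.zero_le _) hc
    have hc0 : c ≠ 0 := fun h => h0 (h ▸ hc)
    refine RICH_root p L hL c r hr ?_ ?_ ?_
    · intro h
      have h1 : p ∣ c.num.natAbs := Int.natCast_dvd.1 h
      have h2 : 0 < c.num.natAbs := Int.natAbs_pos.2 (Rat.num_ne_zero.2 hc0)
      have := Nat.le_of_dvd h2 h1
      omega
    · intro h
      have h1 : p ∣ c.den := Int.natCast_dvd_natCast.1 h
      have := Nat.le_of_dvd c.den_pos h1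
      omega
    · intro h
      have h1 : p ∣ L := Int.natCast_dvd_natCast.1 h
      have := Nat.le_of_dvd (Nat.pos_of_ne_zero hL) h1
      omega

end Pool.Agent.H527R9.CC
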