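import Pool.Agent.H527R9.CC.Defs3

set_option autoImplicit false

namespace Pool.Agent.H527R9.CC

open Polynomial

theorem ROOTS_bd (q : ℚ[X]) : ∃ B : ℕ, ∀ (p : ℕ) [Fact p.Prime], B < p → ∀ n : ℤ,
    ‖((q.eval (n : ℚ) : ℚ) : ℚ_[p])‖ ≤ 1 := by
  induction q using Polynomial.induction_on' with
  | add f g hf hg =>
    obtain ⟨B1, h1⟩ := hf
    obtain ⟨B2, h2⟩ := hg
    refine ⟨B1 + B2, fun p _ hp n => ?_⟩
    rw [eval_add, Rat.cast_add]
    exact (Padic.nonarchimedean _ _).trans (max_le (h1 p (by omega) n) (h2 p (by omega) n))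
  | monomial k a =>
    refine ⟨a.den, fun p _ hp n => ?_⟩
    rw [eval_monomial, Rat.cast_mul, norm_mul]
    have h1 : ‖((a : ℚ) : ℚ_[p])‖ ≤ 1 := by
      apply Padic.norm_rat_le_one
      intro h
      exact absurd (Nat.le_of_dvd a.den_pos h) (by omega)
    have h2 : ‖(((n : ℚ) ^ k : ℚ) : ℚ_[p])‖ ≤ 1 := by
      have : (((n : ℚ) ^ k : ℚ) : ℚ_[p]) = ((n ^ k : ℤ) : ℚ_[p]) := by push_cast; rfl
      rw [this]
      exact Padic.norm_int_le_one _
    calc _ ≤ (1 : ℝ) * 1 := mul_le_mul h1 h2 (norm_nonneg _) zero_le_one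
      _ = 1 := one_mul 1

theorem ROOTS_schur (g : ℤ[X]) (hg : 0 < g.natDegree) (B : ℕ) :
    ∃ (p : ℕ) (n : ℤ), p.Prime ∧ B < p ∧ (p : ℤ) ∣ g.eval n := by
  by_cases hc : g.eval 0 = 0
  · obtain ⟨p, hp1, hp2⟩ := Nat.exists_infinite_primes (B + 1)
    exact ⟨p, 0, hp2, by omega, by rw [hc]; exact dvd_zero _⟩
  · set c : ℤ := g.eval 0 with hcd
    set M : ℤ := (B.factorial : ℤ) with hM
    have hM0 : M ≠ 0 := by
      rw [hM]; exact_mod_cast B.factorial_ne_zero
    -- choose t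
    obtain ⟨t, ht1, ht2⟩ : ∃ t : ℤ, g.eval (c * M * t) ≠ c ∧ g.eval (c * M * t) ≠ -c := by
      have key : ∀ e : ℤ, {t : ℤ | g.eval (c * M * t) = e}.Finite := by
        intro e
        have hne : g - C e ≠ 0 := by
          intro h
          have : g = C e := sub_eq_zero.1 h
          rw [this, natDegree_C] at hg
          exact lt_irrefl _ hg
        have hfin : {x : ℤ | (g - C e).IsRoot x}.Finite := by
          have := (g - C e).roots.toFinset.finite_toSet
          refine this.subset ?_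
          intro x hx
          simp only [Finset.mem_coe, Multiset.mem_toFinset]
          exact (mem_roots hne).2 hx
        refine (hfin.preimage (f := fun t : ℤ => c * M * t) ?_).subset ?_
        · intro a _ b _ hab
          exact mul_left_cancel₀ (mul_ne_zero hc hM0) hab
        · intro t ht
          show (g - C e).IsRoot (c * M * t)
          rw [IsRoot, eval_sub, eval_C, ht, sub_self]
      have hinf : (({t : ℤ | g.eval (c * M * t) = c} ∪ {t : ℤ | g.eval (c * M * t) = -c})ᶜ).Nonempty := by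
        have := ((key c).union (key (-c))).infinite_compl
        exact this.nonempty
      obtain ⟨t, ht⟩ := hinf
      refine ⟨t, fun h => ht (Or.inl h), fun h => ht (Or.inr h)⟩
    have hd : c * M * t - 0 ∣ g.eval (c * M * t) - g.eval 0 := sub_dvd_eval_sub _ _ _
    obtain ⟨v, hv⟩ := hd
    have hv' : g.eval (c * M * t) = c * (1 + M * (t * v)) := by
      have : g.eval (c * M * t) = g.eval 0 + (c * M * t - 0) * v := by rw [← hv]; ring
      rw [this, ← hcd]; ring
    set W : ℤ := 1 + M * (t * v) with hW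
    have hW1 : W.natAbs ≠ 1 := by
      intro h
      rcases Int.natAbs_eq_iff.1 h with h | h
      · apply ht1; rw [hv', h]; simp
      · apply ht2; rw [hv', h]; simp
    refine ⟨W.natAbs.minFac, c * M * t, Nat.minFac_prime hW1, ?_, ?_⟩
    · by_contra hcon
      push Not at hcon
      have hp := Nat.minFac_prime hW1
      have h1 : ((W.natAbs.minFac : ℕ) : ℤ) ∣ M := by
        rw [hM]; exact_mod_cast (Nat.dvd_factorial hp.pos hcon)
      have h2 : ((W.natAbs.minFac : ℕ) : ℤ) ∣ W := by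
        rw [Int.natCast_dvd]; exact Nat.minFac_dvd _
      have h3 : ((W.natAbs.minFac : ℕ) : ℤ) ∣ 1 := by
        have : (1 : ℤ) = W - M * (t * v) := by rw [hW]; ring
        rw [this]
        exact dvd_sub h2 (h1.mul_right _)
      have h4 := Int.natCast_dvd.1 h3
      simp at h4
      exact hp.one_lt.ne' (by simpa using h4)
    · rw [hv']
      apply Dvd.dvd.mul_left
      rw [Int.natCast_dvd]; exact Nat.minFac_dvd _

theorem ROOTS_field (s : Finset ℤ[X]) (hs : ∀ f ∈ s, 0 < f.natDegree) :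
    ∃ g : ℚ[X], g ≠ 0 ∧ 0 < g.natDegree ∧ ∀ f ∈ s, ∃ h : ℚ[X], g ∣ (f.map (Int.castRingHom ℚ)).comp h := by
  classical
  have hr : ∀ f : ℤ[X], ∃ α : AlgebraicClosure ℚ, f ∈ s → aeval α (f.map (Int.castRingHom ℚ)) = 0 := by
    intro f
    by_cases hf : f ∈ s
    · have hd : (f.map (Int.castRingHom ℚ)).degree ≠ 0 := by
        rw [degree_map_eq_of_injective (RingHom.injective_int _)]
        intro h
        have := hs f hf
        rw [natDegree_eq_zero_iff_degree_le_zero.2 h.le] at this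
        exact lt_irrefl _ this
      obtain ⟨α, hα⟩ := IsAlgClosed.exists_aeval_eq_zero (AlgebraicClosure ℚ) (f.map (Int.castRingHom ℚ)) hd
      exact ⟨α, fun _ => hα⟩
    · exact ⟨0, fun h => absurd h hf⟩
  choose α hα using hr
  let S : Set (AlgebraicClosure ℚ) := ((s.image α : Finset (AlgebraicClosure ℚ)) : Set (AlgebraicClosure ℚ))
  let K := IntermediateField.adjoin ℚ S
  haveI : FiniteDimensional ℚ K := by
    haveI : Finite S := Finset.finite_toSet _
    exact IntermediateField.finiteDimensional_adjoin (fun x _ => ((AlgebraicClosure.isAlgebraic ℚ).isAlgebraic x).isIntegral)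
  let pb := Field.powerBasisOfFiniteOfSeparable ℚ K
  have hint : IsIntegral ℚ pb.gen := Algebra.IsIntegral.isIntegral _
  refine ⟨minpoly ℚ pb.gen, minpoly.ne_zero hint, minpoly.natDegree_pos hint, fun f hf => ?_⟩
  have hmem : α f ∈ K := IntermediateField.subset_adjoin ℚ S (by
    show α f ∈ ((s.image α : Finset (AlgebraicClosure ℚ)) : Set (AlgebraicClosure ℚ))
    exact Finset.mem_coe.2 (Finset.mem_image_of_mem _ hf))
  obtain ⟨h, hh⟩ := pb.exists_eq_aeval' (⟨α f, hmem⟩ : K)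
  refine ⟨h, minpoly.dvd _ _ ?_⟩
  rw [aeval_comp, ← hh]
  apply Subtype.val_injective
  have := hα f hf
  have e : ((aeval (⟨α f, hmem⟩ : K) (f.map (Int.castRingHom ℚ)) : K) : AlgebraicClosure ℚ) =
      aeval (α f) (f.map (Int.castRingHom ℚ)) := by
    exact (aeval_algHom_apply K.val (⟨α f, hmem⟩ : K) _).symm
  rw [e, this]
  rfl

theorem t_ROOTS : S_ROOTS := by
  classical
  intro s hs N
  obtain ⟨g, hg0, hgd, hg⟩ := ROOTS_field s hs
  have hg' : ∀ f : ℤ[X], ∃ (h w : ℚ[X]), f ∈ s → (f.map (Int.castRingHom ℚ)).comp h = g * w := by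
    intro f
    by_cases hf : f ∈ s
    · obtain ⟨h, w, hw⟩ := hg f hf
      exact ⟨h, w, fun _ => hw⟩
    · exact ⟨0, 0, fun h => absurd h hf⟩
  choose h w hw using hg'
  choose Bh hBh using fun f => ROOTS_bd (h f)
  choose Bw hBw using fun f => ROOTS_bd (w f)
  -- clear denominators of g
  obtain ⟨⟨d, hd⟩, hdg⟩ := IsLocalization.integerNormalization_map_to_map (nonZeroDivisors ℤ) g
  set g1 : ℤ[X] := IsLocalization.integerNormalization (nonZeroDivisors ℤ) g with hg1
  have hd0 : d ≠ 0 := nonZeroDivisors.ne_zero hd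
  have hg1m : g1.map (Int.castRingHom ℚ) = C (d : ℚ) * g := by
    have e : (Int.castRingHom ℚ) = algebraMap ℤ ℚ := rfl
    rw [e, hdg]
    ext i
    simp [Submonoid.smul_def]
  have hg1d : 0 < g1.natDegree := by
    have h1 : (g1.map (Int.castRingHom ℚ)).natDegree = g1.natDegree :=
      natDegree_map_eq_of_injective (RingHom.injective_int _) _
    rw [← h1, hg1m, natDegree_C_mul (by exact_mod_cast hd0)]
    exact hgd
  obtain ⟨p, n, hp, hpB, hpn⟩ := ROOTS_schur g1 hg1d (N + d.natAbs + ∑ f ∈ s, (Bh f + Bw f))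
  haveI : Fact p.Prime := ⟨hp⟩
  refine ⟨p, hp, by omega, fun f hf => ?_⟩
  have hsum : Bh f + Bw f ≤ ∑ f ∈ s, (Bh f + Bw f) :=
    Finset.single_le_sum (f := fun f => Bh f + Bw f) (fun _ _ => Nat.zero_le _) hf
  have b1 := hBh f p (by omega) n
  have b2 := hBw f p (by omega) n
  -- g(n) is divisible by p
  have b3 : ‖((g.eval (n : ℚ) : ℚ) : ℚ_[p])‖ < 1 := by
    have e1 : ((g1.eval n : ℤ) : ℚ) = (d : ℚ) * g.eval (n : ℚ) := by
      have : (g1.map (Int.castRingHom ℚ)).eval (n : ℚ) = ((g1.eval n : ℤ) : ℚ) := by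
        rw [eval_intCast_map]; simp
      rw [← this, hg1m, eval_mul, eval_C]
    have e2 : ((g1.eval n : ℤ) : ℚ_[p]) = (d : ℚ_[p]) * ((g.eval (n : ℚ) : ℚ) : ℚ_[p]) := by
      have := congrArg (fun q : ℚ => (q : ℚ_[p])) e1
      simpa using this
    have n1 : ‖((g1.eval n : ℤ) : ℚ_[p])‖ < 1 := Padic.norm_intCast_lt_one_iff.2 hpn
    have n2 : ‖(d : ℚ_[p])‖ = 1 := by
      refine le_antisymm (Padic.norm_int_le_one d) (not_lt.1 fun hlt => ?_)
      have := Padic.norm_intCast_lt_one_iff.1 hlt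
      have h5 : p ∣ d.natAbs := Int.natCast_dvd.1 this
      exact absurd (Nat.le_of_dvd (Int.natAbs_pos.2 hd0) h5) (by omega)
    rw [e2, norm_mul, n2, one_mul] at n1
    exact n1
  -- the root in Z_p
  let z : ℤ_[p] := ⟨(((h f).eval (n : ℚ) : ℚ) : ℚ_[p]), b1⟩
  have hz : ((f.eval₂ (Int.castRingHom ℤ_[p]) z : ℤ_[p]) : ℚ_[p]) =
      (((f.map (Int.castRingHom ℚ)).comp (h f)).eval (n : ℚ) : ℚ) := by
    have e1 : ((f.eval₂ (Int.castRingHom ℤ_[p]) z : ℤ_[p]) : ℚ_[p]) =
        f.eval₂ (Int.castRingHom ℚ_[p]) (((h f).eval (n : ℚ) : ℚ) : ℚ_[p]) := by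
      have := hom_eval₂ f (Int.castRingHom ℤ_[p]) (PadicInt.Coe.ringHom (p := p)) z
      rw [show (PadicInt.Coe.ringHom (p := p)).comp (Int.castRingHom ℤ_[p]) = Int.castRingHom ℚ_[p] from
        RingHom.ext_int _ _] at this
      exact this
    have e2 : ((((f.map (Int.castRingHom ℚ)).comp (h f)).eval (n : ℚ) : ℚ) : ℚ_[p]) =
        f.eval₂ (Int.castRingHom ℚ_[p]) (((h f).eval (n : ℚ) : ℚ) : ℚ_[p]) := by
      rw [eval_comp, eval_map]
      have := hom_eval₂ f (Int.castRingHom ℚ) (Rat.castHom ℚ_[p]) ((h f).eval (n : ℚ))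
      rw [show (Rat.castHom ℚ_[p]).comp (Int.castRingHom ℚ) = Int.castRingHom ℚ_[p] from
        RingHom.ext_int _ _] at this
      exact this
    rw [e1, e2]
  have hz2 : ‖f.eval₂ (Int.castRingHom ℤ_[p]) z‖ < 1 := by
    show ‖((f.eval₂ (Int.castRingHom ℤ_[p]) z : ℤ_[p]) : ℚ_[p])‖ < 1
    rw [hz, hw f hf, eval_mul, Rat.cast_mul, norm_mul]
    calc _ ≤ ‖((g.eval (n : ℚ) : ℚ) : ℚ_[p])‖ * 1 := mul_le_mul_of_nonneg_left b2 (norm_nonneg _)
      _ < 1 := by rw [mul_one]; exact b3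
  have hz3 : PadicInt.toZMod (f.eval₂ (Int.castRingHom ℤ_[p]) z) = 0 := by
    have : f.eval₂ (Int.castRingHom ℤ_[p]) z ∈ RingHom.ker (PadicInt.toZMod : ℤ_[p] →+* ZMod p) := by
      rw [PadicInt.ker_toZMod, IsLocalRing.mem_maximalIdeal]
      exact PadicInt.mem_nonunits.2 hz2
    exact (RingHom.mem_ker).1 this
  have hz4 : f.eval₂ (Int.castRingHom (ZMod p)) (PadicInt.toZMod z) = 0 := by
    have := hom_eval₂ f (Int.castRingHom ℤ_[p]) (PadicInt.toZMod (p := p)) z
    rw [show (PadicInt.toZMod (p := p)).comp (Int.castRingHom ℤ_[p]) = Int.castRingHom (ZMod p) from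
      RingHom.ext_int _ _, hz3] at this
    exact this.symm
  refine ⟨((PadicInt.toZMod z).val : ℤ), ?_⟩
  rw [← ZMod.intCast_zmod_eq_zero_iff_dvd]
  have e : (((f.eval ((PadicInt.toZMod z).val : ℤ)) : ℤ) : ZMod p) =
      f.eval₂ (Int.castRingHom (ZMod p)) (PadicInt.toZMod z) := by
    have := hom_eval₂ f (RingHom.id ℤ) (Int.castRingHom (ZMod p)) ((PadicInt.toZMod z).val : ℤ)
    simp only [RingHom.comp_id, eval₂_id, eq_intCast] at this
    rw [this]
    have e3 : (Int.castRingHom (ZMod p)) (((PadicInt.toZMod z).val : ℕ) : ℤ) = PadicInt.toZMod z := by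
      rw [eq_intCast, Int.cast_natCast, ZMod.natCast_zmod_val]
    rw [eq_intCast] at e3
    rw [e3]
  rw [e, hz4]

end Pool.Agent.H527R9.CC
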