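import Pool.Agent.H527R9.CC.Defs3

set_option autoImplicit false

namespace Pool.Agent.H527R9.CC

open Polynomial

/-- the nonzero quotients of integers of absolute value at most `i` -/
noncomputable def SPR_C (i : ℕ) : Finset ℚ :=
  (((Finset.Icc (-(i : ℤ)) i) ×ˢ (Finset.Icc (-(i : ℤ)) i)).image
    (fun p : ℤ × ℤ => (p.1 : ℚ) / (p.2 : ℚ))).filter (fun c => c ≠ 0)

theorem SPR_zero (i : ℕ) : (0 : ℚ) ∉ SPR_C i := by
  unfold SPR_C
  simp

theorem SPR_mem (i : ℕ) (c : ℚ) (hc : c ≠ 0) (h1 : c.num.natAbs ≤ i) (h2 : c.den ≤ i) :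
    c ∈ SPR_C i := by
  unfold SPR_C
  rw [Finset.mem_filter, Finset.mem_image]
  refine ⟨⟨(c.num, (c.den : ℤ)), ?_, ?_⟩, hc⟩
  · rw [Finset.mem_product, Finset.mem_Icc, Finset.mem_Icc]
    have := c.den_pos
    refine ⟨⟨?_, ?_⟩, ⟨?_, ?_⟩⟩
    · show -(i : ℤ) ≤ c.num
      omega
    · show c.num ≤ (i : ℤ)
      omega
    · show -(i : ℤ) ≤ (c.den : ℤ)
      omega
    · show (c.den : ℤ) ≤ (i : ℤ)
      omega
  · show ((c.num : ℤ) : ℚ) / (((c.den : ℕ) : ℤ) : ℚ) = c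
    rw [Int.cast_natCast]
    exact Rat.num_div_den c

theorem t_SPR (hRICH : S_RICH) : S_SPR := by
  intro f
  have hex : ∀ i N : ℕ, ∃ p : ℕ, ∃ _ : Fact p.Prime, N < p ∧ p ≡ 1 [MOD (i + 1).factorial] ∧
      ∀ c ∈ SPR_C i, ∃ s : ℚ_[p], s ^ (i + 1).factorial = (c : ℚ_[p]) := by
    intro i N
    obtain ⟨p, hp, _, h2, h3, h4⟩ := hRICH (SPR_C i) (i + 1).factorial (i + 1).factorial N
      (SPR_zero i) (Nat.factorial_ne_zero _) (Nat.factorial_ne_zero _)
    exact ⟨p, hp, h2, h3, h4⟩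
  choose g hg1 hg2 hg3 hg4 using hex
  let q : ℕ → ℕ := fun i => Nat.rec (g 0 (f 0)) (fun i prev => g (i + 1) (prev + f (i + 1))) i
  have hq : ∀ i, ∃ N, q i = g i N ∧ f i ≤ N := by
    intro i
    cases i with
    | zero => exact ⟨f 0, rfl, le_rfl⟩
    | succ i => exact ⟨q i + f (i + 1), rfl, Nat.le_add_left _ _⟩
  have hmono : StrictMono q := strictMono_nat_of_lt_succ fun i => by
    have h1 : q i + f (i + 1) < q (i + 1) := hg2 (i + 1) (q i + f (i + 1))
    omega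
  refine ⟨q, hmono, fun i => ?_, fun C L D N hC hL hD => ?_⟩
  · obtain ⟨N, h1, h2⟩ := hq i
    have := hg2 i N
    omega
  · set B : ℕ := C.sup (fun c => max c.num.natAbs c.den) with hB
    have hBc : ∀ c ∈ C, c.num.natAbs ≤ B ∧ c.den ≤ B := by
      intro c hc
      have h : max c.num.natAbs c.den ≤ B :=
        Finset.le_sup (f := fun c : ℚ => max c.num.natAbs c.den) hc
      exact ⟨(le_max_left _ _).trans h, (le_max_right _ _).trans h⟩
    obtain ⟨M, h1, h2⟩ := hq (D + N + L + B)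
    have hid : D + N + L + B ≤ q (D + N + L + B) := hmono.id_le _
    have hDp : 0 < D := Nat.pos_of_ne_zero hD
    have hLp : 0 < L := Nat.pos_of_ne_zero hL
    refine ⟨g (D + N + L + B) M, hg1 _ _, ⟨_, h1⟩, ?_, ?_, ?_⟩
    · rw [← h1]
      omega
    · exact (hg3 (D + N + L + B) M).of_dvd (Nat.dvd_factorial hDp (by omega))
    · intro c hc
      have hc0 : c ≠ 0 := by
        rintro rfl
        exact hC hc
      obtain ⟨s, hs⟩ := hg4 (D + N + L + B) M c (SPR_mem _ c hc0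
        ((hBc c hc).1.trans (by omega)) ((hBc c hc).2.trans (by omega)))
      obtain ⟨e, he⟩ : L ∣ (D + N + L + B + 1).factorial := Nat.dvd_factorial hLp (by omega)
      refine ⟨s ^ e, ?_⟩
      rw [← pow_mul, mul_comm e L, ← he]
      exact hs

end Pool.Agent.H527R9.CC
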