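import Pool.Agent.H527R9.CC.Defs3

set_option autoImplicit false

namespace Pool.Agent.H527R9.CC

open Polynomial

theorem t_SQK : S_SQK := by
  intro p _ k hk
  have h2 : (k : ℚ_[p]) ≠ 0 := Nat.cast_ne_zero.2 hk
  have h2n : ‖(k : ℚ_[p])‖ ≤ 1 := by
    have := Padic.norm_int_le_one (p := p) (k : ℤ)
    simpa using this
  have hpos : 0 < ‖(k : ℚ_[p])‖ := norm_pos_iff.2 h2
  refine ⟨‖(k : ℚ_[p])‖ ^ 2, by positivity, fun u hu => ?_⟩
  have h21 : ‖(k : ℚ_[p])‖ ^ 2 ≤ 1 := pow_le_one₀ (norm_nonneg _) h2n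
  have hu1 : ‖u‖ ≤ 1 := by
    have h3 := Padic.nonarchimedean (u - 1) 1
    rw [sub_add_cancel, norm_one] at h3
    exact h3.trans (max_le (hu.le.trans h21) le_rfl)
  set v : ℤ_[p] := ⟨u, hu1⟩ with hv
  set F : ℤ_[p][X] := X ^ k - C v with hF
  have e1 : aeval (1 : ℤ_[p]) F = 1 - v := by
    simp [hF]
  have e2 : aeval (1 : ℤ_[p]) (derivative F) = (k : ℤ_[p]) := by
    simp [hF, derivative_X_pow]
  have n1 : ‖aeval (1 : ℤ_[p]) F‖ < ‖aeval (1 : ℤ_[p]) (derivative F)‖ ^ 2 := by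
    rw [e1, e2, PadicInt.norm_def, PadicInt.norm_def]
    push_cast
    rw [norm_sub_rev]
    exact hu
  obtain ⟨z, hz, -⟩ := hensels_lemma n1
  have hz' : z ^ k = v := by
    have : z ^ k - v = 0 := by
      simpa [hF] using hz
    exact sub_eq_zero.1 this
  refine ⟨(z : ℚ_[p]), ?_⟩
  have h4 : ((z ^ k : ℤ_[p]) : ℚ_[p]) = u := by rw [hz']
  rw [← h4]
  push_cast
  ring

end Pool.Agent.H527R9.CC
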